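import Pool.Agent.H70.CG.Geo
import Pool.Agent.H5.CG.KerS

/-!
PROJECT CG (MP_0d9ad5_pr, notes 2718, 2748). The sums which occur in one step of the second chain.
`Γ` = final state of the first chain, `st` = present state of the second chain, `v` = coarse step.
-/

namespace CG

open H5DF H95LBD MeasureTheory
open scoped ENNReal

variable {d : ℕ}

noncomputable section

/-- The part of `Op` with coarse step `v`. -/
def Opv (P : Par d) (kern : St d → Finset (V d) → ℝ≥0∞) (ep : V d → Dir d → ℝ≥0∞) (v : V d)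
    (F : St d → ℝ≥0∞) (st : St d) : ℝ≥0∞ :=
  ∑' q : Finset (V d) × V d × Dir d, kk P kern ep st (v, q) * F (nxt P st (v, q))

def S1 (P : Par d) (Γ st : St d) (v : V d) : ℝ≥0∞ :=
  ∑ y ∈ cell P.L (st.z + (P.L : ℤ) • v), ∑ s : Dir d,
    tau d P.p (y - step s - st.x) * Vp P.p (occ Γ.H) y

def S2 (P : Par d) (Γ st : St d) (v : V d) : ℝ≥0∞ :=
  ∑ w ∈ occ Γ.H \ occ st.H, ∑ s' : Dir d, ∑ y ∈ cell P.L (st.z + (P.L : ℤ) • v), ∑ s : Dir d,
    Tr P.p st.x (y - step s) (w + step s')

def S5 (P : Par d) (Γ st : St d) (v : V d) : ℝ≥0∞ :=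
  ∑ w ∈ occ Γ.H ∩ cell P.L (st.z + (P.L : ℤ) • v), ∑ s : Dir d, tau d P.p (w - step s - st.x)

open Classical in
def S6 (P : Par d) (Γ st : St d) (v : V d) : ℝ≥0∞ :=
  if ∃ e ∈ Γ.H.head?, e.y ∈ cell P.L (st.z + (P.L : ℤ) • v) then tau d P.p (Γ.x - st.x) else 0

end

/-- `x ∈ cell z`, `y ∈ cell (z + L v)`: the distance is more than `L`. -/
lemma cell_dist {P : Par d} (hL : 1 ≤ P.L) {z v x y : V d} (hv : v ∈ steps P.i0)
    (hx : x ∈ cell P.L z) (hy : y ∈ cell P.L (z + (P.L : ℤ) • v)) :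
    P.L + 1 ≤ nm (y - x) ∧ nm (y - x) ≤ 3 * P.L := by
  have hx' : ∀ i, z i ≤ x i ∧ x i < z i + P.L := by
    intro i
    have h := Fintype.mem_piFinset.1 hx i
    rwa [Finset.mem_Ico] at h
  have hy' : ∀ i, z i + (P.L : ℤ) * v i ≤ y i ∧ y i < z i + (P.L : ℤ) * v i + P.L := by
    intro i
    have h := Fintype.mem_piFinset.1 hy i
    rw [Finset.mem_Ico, Pi.add_apply, Pi.smul_apply, smul_eq_mul] at h
    exact h
  have hv' : ∀ i, if i = P.i0 then v i = 2 else v i = -1 ∨ v i = 1 := by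
    intro i
    have h := Fintype.mem_piFinset.1 hv i
    by_cases hi : i = P.i0
    · rw [if_pos hi] at h ⊢
      exact Finset.mem_singleton.1 h
    · rw [if_neg hi] at h ⊢
      rwa [Finset.mem_insert, Finset.mem_singleton] at h
  constructor
  · have h1 := hx' P.i0
    have h2 := hy' P.i0
    have h3 := hv' P.i0
    rw [if_pos rfl] at h3
    rw [h3] at h2
    have h4 := natAbs_le_nm (y - x) P.i0
    rw [Pi.sub_apply] at h4
    omega
  · rw [nm_le]
    intro i
    have h1 := hx' i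
    have h2 := hy' i
    have h3 := hv' i
    rw [Pi.sub_apply]
    by_cases hi : i = P.i0
    · rw [if_pos hi] at h3
      rw [h3] at h2
      omega
    · rw [if_neg hi] at h3
      rcases h3 with h3 | h3
      · rw [h3] at h2
        omega
      · rw [h3] at h2
        omega

/-- `Op` is the sum of its parts. -/
lemma Op_eq (P : Par d) (kern : St d → Finset (V d) → ℝ≥0∞) (ep : V d → Dir d → ℝ≥0∞)
    (F : St d → ℝ≥0∞) (st : St d) : Op P kern ep F st = ∑ v ∈ steps P.i0, Opv P kern ep v F st := by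
  have h1 : Op P kern ep F st = ∑' v : V d, Opv P kern ep v F st :=
    ENNReal.tsum_prod' (f := fun q : Stp d => kk P kern ep st q * F (nxt P st q))
  rw [h1]
  refine tsum_eq_sum fun v hv => ?_
  refine ENNReal.tsum_eq_zero.2 fun q => ?_
  have h2 : kk P kern ep st (v, q) = 0 := by
    unfold kk
    rw [if_neg]
    rintro ⟨h3, -⟩
    exact hv h3
  rw [h2, zero_mul]

end CG
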