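import Pool.Agent.H70.CG.Geo
import Pool.Agent.H5.CG.KerA
import Pool.Agent.H5.CG.KerT
import Pool.Agent.H54.CF.Rw

/-!
CG-Hist (MP_0d9ad5_pr, notes 2718, 2748). Potentials of the occupied set of a good state.
occ_rho: `dmp_gro` and (C1) (`good_C1`) for every entry.
ent_E4: the earlier entries by (C3) of `e` (the weights are at least 1), the later entries `e'` at distance
`m ≥ 1` in the list by (C3) of `e'`: the term of `e` in it carries `m^2`; `∑ 1/m^2 ≤ 2`. ent_adj: the same with (C4).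
-/

namespace CG

open H5DF H95LBD MeasureTheory
open scoped ENNReal

variable {d : ℕ}

theorem occ_rho (P : Par d) (Γ : St d) (h : good P Γ) (y : V d) :
    ∑ w ∈ occ Γ.H, dmp P.L (y - w) ≤ P.b1 * rho P Γ y := by
  rw [sum_occ h]
  have h1 : (Γ.H.map fun e => ∑ w ∈ e.A, dmp P.L (y - w)).sum ≤
      (Γ.H.map fun e => P.b1 * dmp P.L (y - e.x)).sum := by
    apply List.sum_le_sum
    intro e he
    calc ∑ w ∈ e.A, dmp P.L (y - w)
        ≤ ∑ w ∈ e.A, dmp P.L (y - e.x) * gro P.L (w - e.x) :=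
          Finset.sum_le_sum fun w _ => dmp_gro P.L e.x y w
      _ = dmp P.L (y - e.x) * ∑ w ∈ e.A, gro P.L (w - e.x) := by
          rw [Finset.mul_sum]
      _ ≤ dmp P.L (y - e.x) * P.b1 := mul_le_mul' le_rfl (good_C1 h he)
      _ = P.b1 * dmp P.L (y - e.x) := mul_comm _ _
  refine h1.trans ?_
  rw [List.sum_map_mul_left]
  refine mul_le_mul' le_rfl ?_
  unfold rho
  exact le_self_add

/-- The potential of the history for a general kernel. -/
noncomputable def Hist_F (K : V d → V d → ℝ≥0∞) : ℕ → List (Ent d) → V d → ℝ≥0∞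
  | _, [], _ => 0
  | k, e :: H, w => ((k : ℝ≥0∞) + 1) ^ 2 * (∑ w' ∈ e.A, K w w') + Hist_F K (k + 1) H w

/-- All entries satisfy the bound. -/
def Hist_B (K : V d → V d → ℝ≥0∞) (b : ℝ≥0∞) : List (Ent d) → Prop
  | [] => True
  | e :: H => Hist_B K b H ∧ ∑ w ∈ e.A, Hist_F K 0 H w ≤ b

lemma Hist_occ (K : V d → V d → ℝ≥0∞) (H : List (Ent d)) (k : ℕ) (w : V d) :
    ∑ w' ∈ occ H, K w w' ≤ Hist_F K k H w := by
  induction H generalizing k with
  | nil => simp [occ, Hist_F]
  | cons e H ih =>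
    rw [occ, Hist_F]
    calc ∑ w' ∈ e.A ∪ occ H, K w w' ≤ ∑ w' ∈ e.A, K w w' + ∑ w' ∈ occ H, K w w' := by
          rw [← Finset.sum_union_inter]
          exact le_self_add
      _ ≤ ((k : ℝ≥0∞) + 1) ^ 2 * (∑ w' ∈ e.A, K w w') + Hist_F K (k + 1) H w := by
          refine add_le_add ?_ (ih (k + 1))
          conv_lhs => rw [← one_mul (∑ w' ∈ e.A, K w w')]
          refine mul_le_mul' ?_ le_rfl
          exact one_le_pow₀ le_add_self

lemma Hist_term (K : V d → V d → ℝ≥0∞) (L H : List (Ent d)) (e : Ent d) (k : ℕ) (w : V d) :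
    (((k + L.length : ℕ) : ℝ≥0∞) + 1) ^ 2 * ∑ w' ∈ e.A, K w w' ≤ Hist_F K k (L ++ e :: H) w := by
  induction L generalizing k with
  | nil =>
    simp only [List.length_nil, List.nil_append, Hist_F, add_zero]
    exact le_self_add
  | cons e0 L ih =>
    simp only [List.length_cons, List.cons_append, Hist_F]
    have h := ih (k + 1)
    rw [show k + (L.length + 1) = k + 1 + L.length by omega]
    exact h.trans le_add_self

/-- `1/(i+1)^2` -/
noncomputable def Hist_q (i : ℕ) : ℝ≥0∞ := ((((i : ℕ) : ℝ≥0∞) + 1) ^ 2)⁻¹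

lemma Hist_main (K : V d → V d → ℝ≥0∞) (hK : ∀ w w', K w w' = K w' w) (b : ℝ≥0∞)
    (L H : List (Ent d)) (e : Ent d) (h : Hist_B K b (L ++ e :: H)) :
    ∑ w ∈ e.A, ∑ w' ∈ occ (L ++ e :: H) \ e.A, K w w' ≤
      b * (1 + ∑ i ∈ Finset.range L.length, Hist_q i) := by
  induction L with
  | nil =>
    simp only [List.nil_append, List.length_nil, Finset.range_zero,
      Finset.sum_empty, add_zero, mul_one]
    refine le_trans (Finset.sum_le_sum fun w _ => ?_) h.2
    refine le_trans ?_ (Hist_occ K H 0 w)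
    refine Finset.sum_le_sum_of_subset ?_
    intro w' hw'
    rw [occ, Finset.mem_sdiff, Finset.mem_union] at hw'
    exact hw'.1.resolve_left hw'.2
  | cons e0 L ih =>
    have h1 : Hist_B K b (L ++ e :: H) := h.1
    have h2 : ∑ w ∈ e0.A, Hist_F K 0 (L ++ e :: H) w ≤ b := h.2
    have ih' := ih h1
    have hT : ∑ w ∈ e.A, ∑ w' ∈ e0.A, K w w' ≤ b * Hist_q L.length := by
      have h3 : ((L.length : ℝ≥0∞) + 1) ^ 2 * ∑ w ∈ e.A, ∑ w' ∈ e0.A, K w w' ≤ b := by
        refine le_trans ?_ h2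
        rw [Finset.sum_comm, Finset.mul_sum]
        refine Finset.sum_le_sum fun w' _ => ?_
        have h4 := Hist_term K L H e 0 w'
        rw [zero_add] at h4
        refine le_trans (le_of_eq ?_) h4
        congr 1
        exact Finset.sum_congr rfl fun w _ => hK w w'
      have h4 : ((L.length : ℝ≥0∞) + 1) ^ 2 ≠ 0 := by positivity
      have h5 : ((L.length : ℝ≥0∞) + 1) ^ 2 ≠ ⊤ :=
        ENNReal.pow_ne_top (ENNReal.add_ne_top.2 ⟨ENNReal.natCast_ne_top _, ENNReal.one_ne_top⟩)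
      unfold Hist_q
      rw [← div_eq_mul_inv, ENNReal.le_div_iff_mul_le (Or.inl h4) (Or.inl h5), mul_comm]
      exact h3
    calc ∑ w ∈ e.A, ∑ w' ∈ occ (e0 :: L ++ e :: H) \ e.A, K w w'
        ≤ ∑ w ∈ e.A, (∑ w' ∈ occ (L ++ e :: H) \ e.A, K w w' + ∑ w' ∈ e0.A, K w w') := by
          refine Finset.sum_le_sum fun w _ => ?_
          rw [← Finset.sum_union_inter]
          refine le_trans (Finset.sum_le_sum_of_subset ?_) le_self_add
          intro w' hw'
          have hw2 : w' ∈ (e0.A ∪ occ (L ++ e :: H)) \ e.A := hw'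
          rw [Finset.mem_sdiff, Finset.mem_union] at hw2
          rw [Finset.mem_union, Finset.mem_sdiff]
          rcases hw2.1 with h6 | h6
          · exact Or.inr h6
          · exact Or.inl ⟨h6, hw2.2⟩
      _ = ∑ w ∈ e.A, ∑ w' ∈ occ (L ++ e :: H) \ e.A, K w w' +
          ∑ w ∈ e.A, ∑ w' ∈ e0.A, K w w' := Finset.sum_add_distrib
      _ ≤ b * (1 + ∑ i ∈ Finset.range L.length, Hist_q i) + b * Hist_q L.length :=
          add_le_add ih' hT
      _ = b * (1 + ∑ i ∈ Finset.range (e0 :: L).length, Hist_q i) := by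
          rw [← mul_add, List.length_cons, Finset.sum_range_succ, add_assoc]

lemma Hist_sq (n : ℕ) : ∑ i ∈ Finset.range n, Hist_q i ≤ 2 := by
  have h1 : ∀ i : ℕ, Hist_q i = ENNReal.ofReal (1 / ((i : ℝ) + 1) ^ 2) := by
    intro i
    unfold Hist_q
    rw [one_div, ENNReal.ofReal_inv_of_pos (by positivity), ENNReal.ofReal_pow (by positivity),
      ENNReal.ofReal_add (by positivity) zero_le_one, ENNReal.ofReal_one, ENNReal.ofReal_natCast]
  rw [Finset.sum_congr rfl fun i _ => h1 i, ← ENNReal.ofReal_sum_of_nonneg fun i _ => by positivity]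
  calc ENNReal.ofReal (∑ i ∈ Finset.range n, 1 / ((i : ℝ) + 1) ^ 2) ≤ ENNReal.ofReal 2 :=
        ENNReal.ofReal_le_ofReal (H54CF.sum_sq_le n)
    _ = 2 := by norm_num

lemma Hist_bound (K : V d → V d → ℝ≥0∞) (hK : ∀ w w', K w w' = K w' w) (b : ℝ≥0∞)
    (H : List (Ent d)) (e : Ent d) (he : e ∈ H) (h : Hist_B K b H) :
    ∑ w ∈ e.A, ∑ w' ∈ occ H \ e.A, K w w' ≤ 3 * b := by
  obtain ⟨L, H', rfl⟩ := List.append_of_mem he
  refine (Hist_main K hK b L H' e h).trans ?_
  calc b * (1 + ∑ i ∈ Finset.range L.length, Hist_q i) ≤ b * (1 + 2) := by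
        gcongr
        exact Hist_sq _
    _ = 3 * b := by ring

lemma Hist_FK (P : Par d) (k : ℕ) (H : List (Ent d)) (w : V d) :
    Hist_F (fun w w' => t2 d P.p (w - w')) k H w = FK P k H w := by
  induction H generalizing k with
  | nil => rfl
  | cons e H ih => rw [Hist_F, FK, ih]

lemma Hist_gh3 (P : Par d) : ∀ (H : List (Ent d)) (z x : V d), gh P z x H →
    Hist_B (fun w w' => t2 d P.p (w - w')) P.b3 H := by
  intro H
  induction H with
  | nil => intro z x _; trivial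
  | cons e H ih =>
    rintro z x ⟨h1, v, s, -, -, hgx⟩
    refine ⟨ih _ _ h1, ?_⟩
    have h3 : ∑ w ∈ e.A, FK P 0 H w ≤ P.b3 := hgx.2.2.2.2.1.2.1
    refine le_trans (le_of_eq (Finset.sum_congr rfl fun w _ => ?_)) h3
    exact Hist_FK P _ H w

theorem ent_E4 (P : Par d) (h0 : 0 ≤ P.p) (h1 : P.p ≤ 1) (Γ : St d)
    (h : good P Γ) (e : Ent d) (he : e ∈ Γ.H) :
    ∑ w ∈ e.A, Vp P.p (occ Γ.H \ e.A) w ≤ 3 * P.b3 :=
  Hist_bound (fun w w' => t2 d P.p (w - w')) (fun w w' => t2_comm h0 h1 w w') P.b3 Γ.H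
    e he (Hist_gh3 P Γ.H Γ.z Γ.x h)

/-- The number of directions from `w` to `w'`. -/
noncomputable def Hist_K (w w' : V d) : ℝ≥0∞ := ∑ s : Dir d, if w + step s = w' then 1 else 0

lemma Hist_K_sum (A : Finset (V d)) (w : V d) :
    ∑ w' ∈ A, Hist_K w w' = ∑ s : Dir d, if w + step s ∈ A then (1 : ℝ≥0∞) else 0 := by
  unfold Hist_K
  rw [Finset.sum_comm]
  refine Finset.sum_congr rfl fun s _ => ?_
  rw [Finset.sum_ite_eq]

lemma Hist_opp (s : Dir d) : opp (opp s) = s := by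
  obtain ⟨i, b⟩ := s
  simp [opp]

lemma Hist_K_symm (w w' : V d) : Hist_K w w' = Hist_K w' w := by
  unfold Hist_K
  refine Fintype.sum_equiv (Function.Involutive.toPerm opp Hist_opp) _ _ fun s => ?_
  have : (w + step s = w') ↔ (w' + step (opp s) = w) := by
    rw [step_opp]
    constructor
    · rintro rfl
      abel
    · rintro rfl
      abel
  by_cases h : w + step s = w'
  · rw [if_pos h, if_pos (by exact this.1 h)]
  · rw [if_neg h, if_neg (by exact fun h2 => h (this.2 h2))]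

lemma Hist_F4 (k : ℕ) (H : List (Ent d)) (w : V d) :
    Hist_F Hist_K k H w = F4 k H w := by
  induction H generalizing k with
  | nil => rfl
  | cons e H ih => rw [Hist_F, F4, ih, Hist_K_sum]

lemma Hist_gh4 (P : Par d) : ∀ (H : List (Ent d)) (z x : V d), gh P z x H →
    Hist_B Hist_K P.b4 H := by
  intro H
  induction H with
  | nil => intro z x _; trivial
  | cons e H ih =>
    rintro z x ⟨h1, v, s, -, -, hgx⟩
    refine ⟨ih _ _ h1, ?_⟩
    have h3 : ∑ w ∈ e.A, F4 0 H w ≤ P.b4 := hgx.2.2.2.2.1.2.2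
    refine le_trans (le_of_eq (Finset.sum_congr rfl fun w _ => ?_)) h3
    exact Hist_F4 _ H w

open Classical in
theorem ent_adj (P : Par d) (Γ : St d) (h : good P Γ) (e : Ent d) (he : e ∈ Γ.H) :
    ∑ w ∈ e.A, ∑ s : Dir d, (if w + step s ∈ occ Γ.H \ e.A then (1 : ℝ≥0∞) else 0) ≤
      3 * P.b4 := by
  have h1 := Hist_bound Hist_K Hist_K_symm P.b4 Γ.H e he (Hist_gh4 P Γ.H Γ.z Γ.x h)
  refine le_trans (le_of_eq (Finset.sum_congr rfl fun w _ => ?_)) h1
  rw [Hist_K_sum]

end CG
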