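import Pool.Agent.H54.CG.Rwp
import Pool.Agent.H70.CG.Geo

/-!
PROJECT CF (MP_0d9ad5_pr), chain flow (note 2718). The averaging operator `Mo` and the random walk
estimate for `rho`.
-/

set_option autoImplicit false

namespace CG

open H5DF H95LBD MeasureTheory
open scoped ENNReal

variable {d : ℕ}

/-! ### the averaging operator -/

lemma steps_eq_stp (i0 : Fin d) : steps i0 = H54CF.stp i0 := rfl

lemma steps_card (i0 : Fin d) : (steps i0).card = 2 ^ (d - 1) := H54CF.card_stp i0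

lemma Mo_mono (P : Par d) (b : Bool) {f g : V d → ℝ≥0∞} (h : ∀ z, f z ≤ g z) (z : V d) :
    Mo P b f z ≤ Mo P b g z := by
  unfold Mo
  gcongr
  exact h _

lemma Mo_add (P : Par d) (b : Bool) (f g : V d → ℝ≥0∞) (z : V d) :
    Mo P b (fun w => f w + g w) z = Mo P b f z + Mo P b g z := by
  unfold Mo
  rw [Finset.sum_add_distrib, mul_add]

lemma Mo_mul (P : Par d) (b : Bool) (c : ℝ≥0∞) (f : V d → ℝ≥0∞) (z : V d) :
    Mo P b (fun w => c * f w) z = c * Mo P b f z := by
  unfold Mo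
  rw [← Finset.mul_sum, mul_left_comm]

lemma Mo_const (P : Par d) (b : Bool) (c : ℝ≥0∞) (z : V d) : Mo P b (fun _ => c) z = c := by
  unfold Mo
  rw [Finset.sum_const, nsmul_eq_mul, ← mul_assoc, ENNReal.inv_mul_cancel, one_mul]
  · rw [steps_card]
    simp
  · exact ENNReal.natCast_ne_top _

lemma Mo_sum (P : Par d) (b : Bool) {ι : Type*} (J : Finset ι) (f : ι → V d → ℝ≥0∞) (z : V d) :
    Mo P b (fun w => ∑ j ∈ J, f j w) z = ∑ j ∈ J, Mo P b (f j) z := by
  unfold Mo
  rw [Finset.sum_comm, Finset.mul_sum]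

lemma Mo_tsum (P : Par d) (b : Bool) {ι : Type*} (f : ι → V d → ℝ≥0∞) (z : V d) :
    Mo P b (fun w => ∑' j, f j w) z = ∑' j, Mo P b (f j) z := by
  unfold Mo
  rw [ENNReal.tsum_mul_left]
  congr 1
  exact (Summable.tsum_finsetSum fun _ _ => ENNReal.summable).symm

lemma Mo_iter_mono (P : Par d) (b : Bool) {f g : V d → ℝ≥0∞} (h : ∀ z, f z ≤ g z) (r : ℕ)
    (z : V d) : (Mo P b)^[r] f z ≤ (Mo P b)^[r] g z := by
  induction r generalizing z with
  | zero => exact h z
  | succ r ih =>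
    rw [Function.iterate_succ_apply', Function.iterate_succ_apply']
    exact Mo_mono P b ih z

lemma Mo_iter_mul (P : Par d) (b : Bool) (c : ℝ≥0∞) (f : V d → ℝ≥0∞) (r : ℕ) (z : V d) :
    (Mo P b)^[r] (fun w => c * f w) z = c * (Mo P b)^[r] f z := by
  induction r generalizing z with
  | zero => rfl
  | succ r ih =>
    rw [Function.iterate_succ_apply', Function.iterate_succ_apply']
    rw [← Mo_mul]
    congr 1
    exact funext ih

lemma Mo_iter_add (P : Par d) (b : Bool) (f g : V d → ℝ≥0∞) (r : ℕ) (z : V d) :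
    (Mo P b)^[r] (fun w => f w + g w) z = (Mo P b)^[r] f z + (Mo P b)^[r] g z := by
  induction r generalizing z with
  | zero => rfl
  | succ r ih =>
    rw [Function.iterate_succ_apply', Function.iterate_succ_apply', Function.iterate_succ_apply']
    rw [← Mo_add]
    congr 1
    exact funext ih

lemma Mo_iter_const (P : Par d) (b : Bool) (c : ℝ≥0∞) (r : ℕ) (z : V d) :
    (Mo P b)^[r] (fun _ => c) z = c := by
  induction r generalizing z with
  | zero => rfl
  | succ r ih =>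
    rw [Function.iterate_succ_apply']
    have h : (Mo P b)^[r] (fun _ => c) = fun _ => c := funext ih
    rw [h, Mo_const]

/-! ### partial sums -/

/-- `∑_{i < r} E g (z + S_i)` -/
noncomputable def MoS (P : Par d) (b : Bool) (g : V d → ℝ≥0∞) (r : ℕ) (z : V d) : ℝ≥0∞ :=
  ∑ i ∈ Finset.range r, (Mo P b)^[i] g z

lemma MoS_zero (P : Par d) (b : Bool) (g : V d → ℝ≥0∞) (z : V d) : MoS P b g 0 z = 0 := by
  simp [MoS]

lemma MoS_succ (P : Par d) (b : Bool) (g : V d → ℝ≥0∞) (r : ℕ) (z : V d) :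
    MoS P b g (r + 1) z = g z + Mo P b (MoS P b g r) z := by
  unfold MoS
  rw [Finset.sum_range_succ', add_comm]
  congr 1
  rw [Mo_sum P b (Finset.range r) (fun i => (Mo P b)^[i] g)]
  refine Finset.sum_congr rfl fun i _ => ?_
  rw [Function.iterate_succ_apply']

lemma MoS_mono (P : Par d) (b : Bool) (g : V d → ℝ≥0∞) {r r' : ℕ} (h : r ≤ r') (z : V d) :
    MoS P b g r z ≤ MoS P b g r' z := by
  unfold MoS
  exact Finset.sum_le_sum_of_subset (Finset.range_mono h)

lemma MoS_le (P : Par d) (b : Bool) (g : V d → ℝ≥0∞) (r : ℕ) (z : V d) :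
    MoS P b g r z ≤ ∑' i : ℕ, (Mo P b)^[i] g z := ENNReal.sum_le_tsum _

lemma MoS_mono_fun (P : Par d) (b : Bool) {f g : V d → ℝ≥0∞} (h : ∀ z, f z ≤ g z) (r : ℕ) (z : V d) :
    MoS P b f r z ≤ MoS P b g r z :=
  Finset.sum_le_sum fun i _ => Mo_iter_mono P b h i z

lemma MoS_mul (P : Par d) (b : Bool) (c : ℝ≥0∞) (g : V d → ℝ≥0∞) (r : ℕ) (z : V d) :
    MoS P b (fun w => c * g w) r z = c * MoS P b g r z := by
  unfold MoS
  rw [Finset.mul_sum]
  exact Finset.sum_congr rfl fun i _ => Mo_iter_mul P b c g i z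

/-! ### the walk estimate -/

lemma Mo_true (P : Par d) (f : V d → ℝ≥0∞) : Mo P true f = H54CF.Av P.i0 P.L f := by
  funext z
  unfold Mo H54CF.Av
  rw [steps_card, steps_eq_stp]
  push_cast
  rfl

lemma Mo_false (P : Par d) (f : V d → ℝ≥0∞) : Mo P false f = H54CF.Avm P.i0 P.L f := by
  funext z
  unfold Mo H54CF.Avm
  rw [steps_card, steps_eq_stp]
  push_cast
  rfl

lemma list_sum_range {α : Type*} (l : List α) (f : α → ℝ≥0∞) (a : α) :
    (l.map f).sum = ∑ i ∈ Finset.range l.length, f (l.getD i a) := by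
  induction l with
  | nil => simp
  | cons x l ih =>
    rw [List.map_cons, List.sum_cons, List.length_cons, Finset.sum_range_succ', ih]
    simp only [List.getD_cons_succ, List.getD_cons_zero]
    rw [add_comm]

/-- The list of the pairs (corner, position) of a state, newest first. -/
def prs (Γ : St d) : List (V d × V d) := (Γ.z, Γ.x) :: Γ.H.map fun e => (e.z, e.x)

lemma rho_prs (P : Par d) (Γ : St d) (z : V d) :
    rho P Γ z = ((prs Γ).map fun p => dmp P.L (z - p.2)).sum := by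
  unfold rho prs
  rw [List.map_cons, List.sum_cons, List.map_map, add_comm]
  rfl

lemma prs_coord {P : Par d} (hL : 1 ≤ P.L) {Γ : St d} (hΓ : good P Γ) {j : ℕ}
    (hj : j < (prs Γ).length) :
    ((prs Γ).getD j (0, 0)).1 P.i0 = Γ.z P.i0 + P.L * (-2 * j) := by
  rcases j with _ | j
  · simp [prs]
  · have hj' : j < Γ.H.length := by
      simpa [prs] using hj
    have h := (good_coord hL hΓ j hj').1
    have h1 : (prs Γ).getD (j + 1) (0, 0) = ((Γ.H[j]).z, (Γ.H[j]).x) := by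
      unfold prs
      rw [List.getD_cons_succ, List.getD_eq_getElem _ _ (by simpa using hj'), List.getElem_map]
    rw [h1]
    simp only
    rw [h]
    push_cast
    ring

lemma prs_near {P : Par d} (hL : 1 ≤ P.L) {Γ : St d} (hΓ : good P Γ) {p : V d × V d}
    (hp : p ∈ prs Γ) : nm (p.2 - p.1) ≤ P.L := by
  have key : ∀ {x z : V d}, x ∈ cell P.L z → nm (x - z) ≤ P.L := by
    intro x z h
    rw [mem_cell] at h
    rw [nm_le]
    intro i
    have := h i
    simp only [Pi.sub_apply]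
    omega
  unfold prs at hp
  rw [List.mem_cons, List.mem_map] at hp
  rcases hp with rfl | ⟨e, he, rfl⟩
  · exact key (good_cell hL hΓ)
  · obtain ⟨H', _, h2, _⟩ := good_ent hΓ he
    have h3 := good_cell (st := ⟨e.z, e.x, H'⟩) hL h2
    have h4 : e.x ∈ cell P.L e.z := h3
    exact key h4

/-- **The walk estimate for `rho`.** -/
theorem rho_rw (hd : 5 ≤ d) : ∃ C : ℝ, 0 < C ∧ ∀ (P : Par d) (b : Bool),
    1 ≤ P.L → ∀ Γ : St d, good P Γ → ∀ z : V d,
      ∑' r : ℕ, (Mo P b)^[r] (rho P Γ) z ≤ ENNReal.ofReal C := by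
  classical
  set C0 : ℝ≥0∞ := ENNReal.ofReal (2 ^ 16) * (2 * H54CG.cq ^ 5) with hC0
  have hC0t : C0 ≠ ⊤ :=
    (ENNReal.mul_lt_top ENNReal.ofReal_lt_top (ENNReal.mul_lt_top (by norm_num)
      (ENNReal.pow_lt_top H54CG.cq_lt_top))).ne
  refine ⟨C0.toReal + 1, by positivity, fun P b hL Γ hΓ z => ?_⟩
  have hCC : C0 ≤ ENNReal.ofReal (C0.toReal + 1) := by
    rw [← ENNReal.ofReal_toReal hC0t]
    apply ENNReal.ofReal_le_ofReal
    rw [ENNReal.toReal_ofReal ENNReal.toReal_nonneg]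
    linarith
  refine le_trans ?_ hCC
  set n := (prs Γ).length with hn
  set c : ℕ → V d := fun j => ((prs Γ).getD j (0, 0)).1 with hc
  have hLr : (1 : ℝ) ≤ P.L := by exact_mod_cast hL
  have hL0 : (0 : ℝ) < P.L := by linarith
  -- pointwise bound
  have hpt : ∀ w : V d, rho P Γ w ≤
      ENNReal.ofReal (2 ^ 16) * ∑ j ∈ Finset.range n, dmp P.L (w - c j) := by
    intro w
    rw [rho_prs, list_sum_range (prs Γ) _ ((0 : V d), (0 : V d)), Finset.mul_sum]
    refine Finset.sum_le_sum fun j hj => ?_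
    rw [Finset.mem_range] at hj
    have hmem : (prs Γ).getD j (0, 0) ∈ prs Γ := by
      rw [List.getD_eq_getElem _ _ hj]
      exact List.getElem_mem hj
    have h1 := prs_near hL hΓ hmem
    set p := (prs Γ).getD j (0, 0) with hp
    have h2 : (nm (w - p.1) : ℝ) ≤ nm (w - p.2) + P.L := by
      have h3 := nm_tri w p.2 p.1
      have h4 : nm (w - p.1) ≤ nm (w - p.2) + P.L := by omega
      exact_mod_cast h4
    have h7 : (c j : V d) = p.1 := rfl
    unfold dmp
    rw [← ENNReal.ofReal_mul (by positivity), h7]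
    apply ENNReal.ofReal_le_ofReal
    have h5 : (nm (w - p.1) : ℝ) / P.L ≤ nm (w - p.2) / P.L + 1 := by
      rw [div_le_iff₀ hL0, add_mul, div_mul_cancel₀ _ hL0.ne', one_mul]
      exact h2
    have h6 : (0 : ℝ) ≤ (nm (w - p.2) : ℝ) / P.L := by positivity
    have h8 : (0 : ℝ) ≤ (nm (w - p.1) : ℝ) / P.L := by positivity
    have h9 : 1 + (nm (w - p.1) : ℝ) / P.L ≤ 2 * (1 + (nm (w - p.2) : ℝ) / P.L) := by linarith
    rw [mul_one_div, div_le_div_iff₀ (by positivity) (by positivity), one_mul, ← mul_pow]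
    exact pow_le_pow_left₀ (by positivity) h9 16
  have hrw : ∑' r : ℕ, (Mo P b)^[r] (fun w => ∑ j ∈ Finset.range n,
      dmp P.L (w - c j)) z ≤ 2 * H54CG.cq ^ 5 := by
    have hinj : Set.InjOn (fun j : ℕ => (-2 * j : ℤ)) (Finset.range n) := by
      intro a _ b _ hab
      simp only at hab
      omega
    have hco : ∀ j ∈ Finset.range n, c j P.i0 = Γ.z P.i0 + P.L * (-2 * j : ℤ) := by
      intro j hj
      exact prs_coord hL hΓ (Finset.mem_range.1 hj)
    cases b with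
    | true =>
      have h := H54CG.rw_dmp hd P.i0 hL (Finset.range n) c (Γ.z P.i0) _ hinj hco z
      have e : (Mo P true : (V d → ℝ≥0∞) → V d → ℝ≥0∞) = H54CF.Av P.i0 P.L := funext (Mo_true P)
      rw [e]
      exact h
    | false =>
      have h := H54CG.rwm_dmp hd P.i0 hL (Finset.range n) c (Γ.z P.i0) _ hinj hco z
      have e : (Mo P false : (V d → ℝ≥0∞) → V d → ℝ≥0∞) = H54CF.Avm P.i0 P.L := funext (Mo_false P)
      rw [e]
      exact h
  calc ∑' r : ℕ, (Mo P b)^[r] (rho P Γ) z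
      ≤ ∑' r : ℕ, (Mo P b)^[r] (fun w => ENNReal.ofReal (2 ^ 16) *
          ∑ j ∈ Finset.range n, dmp P.L (w - c j)) z :=
        ENNReal.tsum_le_tsum fun r => Mo_iter_mono P b hpt r z
    _ = ∑' r : ℕ, ENNReal.ofReal (2 ^ 16) * (Mo P b)^[r] (fun w =>
          ∑ j ∈ Finset.range n, dmp P.L (w - c j)) z :=
        tsum_congr fun r => Mo_iter_mul P b _ _ r z
    _ = ENNReal.ofReal (2 ^ 16) * ∑' r : ℕ, (Mo P b)^[r] (fun w =>
          ∑ j ∈ Finset.range n, dmp P.L (w - c j)) z := ENNReal.tsum_mul_left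
    _ ≤ C0 := by rw [hC0]; gcongr

theorem rw_rho (hd : 5 ≤ d) : ∃ C : ℝ, 0 < C ∧ ∀ P : Par d, 1 ≤ P.L →
    ∀ Γ : St d, good P Γ → ∀ (b : Bool) (r : ℕ) (z : V d),
      ∑ i ∈ Finset.range r, (Mo P b)^[i] (rho P Γ) z ≤ ENNReal.ofReal C := by
  obtain ⟨C, hC, h⟩ := rho_rw (d := d) hd
  exact ⟨C, hC, fun P hL Γ hΓ b r z => (ENNReal.sum_le_tsum _).trans (h P b hL Γ hΓ z)⟩

/-- the case `r = 1` -/
theorem rho_le (hd : 5 ≤ d) : ∃ C : ℝ, 0 < C ∧ ∀ P : Par d, 1 ≤ P.L →
    ∀ Γ : St d, good P Γ → ∀ z : V d, rho P Γ z ≤ ENNReal.ofReal C := by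
  obtain ⟨C, hC, h⟩ := rw_rho (d := d) hd
  refine ⟨C, hC, fun P hL Γ hΓ z => ?_⟩
  have h1 := h P hL Γ hΓ true 1 z
  simpa using h1

end CG
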