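import Pool.Agent.H5.CG.Inp

/-!
PROJECT CG (MP_0d9ad5_pr, notes 2718, 2744). The parameter regime of the two-chain estimates, masses.
-/

namespace CG

open H5DF H95LBD MeasureTheory
open scoped ENNReal

variable {d : ℕ}

/-- The regime of parameters. `c3` is the constant of Lemma A. -/
structure Reg (d : ℕ) (pm pM a A Λ c3 : ℝ) (l : ℕ) (P : Par d) : Prop where
  hd : 9 ≤ d
  hΛ : 1 ≤ Λ
  hc3 : 0 < c3
  hl : 1 ≤ l
  L_eq : P.L = l ^ 4
  b1_eq : P.b1 = ENNReal.ofReal (Λ * (P.L : ℝ) ^ 4)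
  b3_le : P.b3 ≤ ENNReal.ofReal (c3 / 24 * (P.L : ℝ) ^ 4)
  b4_le : P.b4 ≤ ENNReal.ofReal (c3 / 24 * (P.L : ℝ) ^ 2)
  kin : KIn d P.p P.L pm pM a A
  s0 : 0 ≤ P.s
  K0 : 16 / c3 ≤ P.s * (P.L : ℝ) ^ 2
  mm_ge : ∀ st, good P st → ∀ v ∈ steps P.i0,
    ENNReal.ofReal (c3 * P.s * (P.L : ℝ) ^ 2) ≤ mm P st v

noncomputable section

/-- The mass of the second chain at time `i`, tested with `f`, given `Γ`. -/
def Mas (P : Par d) (Γ : St d) (i : ℕ) (f : St d → ℝ≥0∞) : ℝ≥0∞ :=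
  ∑' c : Ch d i, wtc P (kernG P Γ) (epG P Γ) i c * f (stt P i c)

open Classical in
/-- The mass with corner in the box `cell L z0`. -/
def BB (P : Par d) (Γ : St d) (i : ℕ) (z0 : V d) : ℝ≥0∞ :=
  Mas P Γ i fun st => if st.z ∈ cell P.L z0 then 1 else 0

open Classical in
/-- The mass at the position `y`. -/
def NN (P : Par d) (Γ : St d) (i : ℕ) (y : V d) : ℝ≥0∞ :=
  Mas P Γ i fun st => if st.x = y then 1 else 0

open Classical in
/-- The mass in the set `A`. -/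
def NE (P : Par d) (Γ : St d) (i : ℕ) (A : Finset (V d)) : ℝ≥0∞ :=
  Mas P Γ i fun st => if st.x ∈ A then 1 else 0

open Classical in
/-- The number of times `≤ n` at which the chain is in `A`. -/
def hit (P : Par d) (A : Finset (V d)) : (n : ℕ) → Ch d n → ℝ≥0∞
  | 0, c => if (stt P 0 c).x ∈ A then 1 else 0
  | n + 1, c => hit P A n c.1 + if (stt P (n + 1) c).x ∈ A then 1 else 0

end

end CG
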