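import Pool.Agent.H70.CG.Reg
import Pool.Agent.H70.CG.Hist
import Pool.Agent.H5.CG.KerS
import Pool.Agent.H70.CG.StepDef

/-!
JOB CG-Ss (MP_0d9ad5_pr, notes 2718, 2748). The sums S1, S2, S5, S6 of one step of the second chain with the
rough inputs. Notation `T = cell P.L (st.z + L v)`, `x = st.x` in `cell P.L st.z` (`good_cell`), `y ∈ T`:
`L + 1 ≤ nm (y - x) ≤ 3 L` (`cell_dist`), `AA = occ Γ.H`.
PROOF. s1: `nm (y - step s - x) ≥ L`, `tau_far`: each `tau ≤ A / L^16`; `∑ y ∈ T, Vp AA y = ∑ w ∈ AA, ∑ y ∈ T, t2 (y - w)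
≤ C L^4 ∑ w ∈ AA, dmp (st.z - w)` (`box_t2` with `z = st.z`, `r = 3` or `4`), `≤ C L^4 b1 rho` (`occ_rho`).
s2: `Tr_y` (sum over `y` in the cell first, for every `s`): `≤ A L^2 t2 (w + step s' - x)`, `t2_nb'`, `t2_comm`.
s5: every `tau ≤ A / L^16`; `#(AA ∩ T) ≤ ∑ w ∈ AA, 6^16 dmp (st.z - w)` (`one_le_dmp`), `occ_rho`.
s6: `e.y ∈ T`, `Γ.x = e.y + step s` (`good`, newest entry), so `nm (Γ.x - x) ≥ L` (`tau_far`) and `≤ 4 L`,
`rho P Γ st.z ≥ dmp (st.z - Γ.x) ≥ 6^-16` (`one_le_dmp`).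
pot2, pot4: `pack2`, `pack4` with `r = l` and `occ_rho`.
-/

namespace CG

open H5DF H95LBD MeasureTheory
open scoped ENNReal

variable {d : ℕ}

lemma Ss_card : (Fintype.card (Dir d) : ℝ) = 2 * d := by
  have : Fintype.card (Dir d) = d * 2 := by
    simp [Dir]
  rw [this]
  push_cast
  ring

lemma Ss_sum_dir (c : ℝ≥0∞) : ∑ _s : Dir d, c = ENNReal.ofReal (2 * d) * c := by
  rw [Finset.sum_const, Finset.card_univ, nsmul_eq_mul, ← Ss_card, ENNReal.ofReal_natCast]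

lemma Ss_mul (a b : ℝ) (ha : 0 ≤ a) (x : ℝ≥0∞) :
    ENNReal.ofReal a * (ENNReal.ofReal b * x) = ENNReal.ofReal (a * b) * x := by
  rw [ENNReal.ofReal_mul ha, mul_assoc]

/-- distance of a point of the next cell from the corner -/
lemma Ss_cell {P : Par d} {z v y : V d} (hv : v ∈ steps P.i0)
    (hy : y ∈ cell P.L (z + (P.L : ℤ) • v)) : nm (y - z) ≤ 3 * P.L := by
  rw [nm_le]
  intro i
  have h2 := mem_cell.1 hy i
  rw [Pi.add_apply, Pi.smul_apply, smul_eq_mul] at h2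
  have h3 := steps_abs hv i
  have h4 : v i ≤ 2 := by omega
  have h5 : -1 ≤ v i := by
    have h6 := Fintype.mem_piFinset.1 hv i
    by_cases hi : i = P.i0
    · rw [if_pos hi, Finset.mem_singleton] at h6
      omega
    · rw [if_neg hi, Finset.mem_insert, Finset.mem_singleton] at h6
      omega
  have h7 : (P.L : ℤ) * v i ≤ P.L * 2 := mul_le_mul_of_nonneg_left h4 (by positivity)
  have h8 : (P.L : ℤ) * (-1) ≤ P.L * v i := mul_le_mul_of_nonneg_left h5 (by positivity)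
  rw [Pi.sub_apply]
  omega

/-- the two-point function between a point of the next cell and the present position -/
lemma Ss_tau {pm pM a A : ℝ} {P : Par d} (K : KIn d P.p P.L pm pM a A) {st : St d}
    (hst : good P st) {v : V d} (hv : v ∈ steps P.i0) {y : V d}
    (hy : y ∈ cell P.L (st.z + (P.L : ℤ) • v)) (s : Dir d) :
    tau d P.p (y - step s - st.x) ≤ ENNReal.ofReal (A / (P.L : ℝ) ^ 16) := by
  refine tau_far K ?_
  have h1 := (cell_dist K.L1 hv (good_cell K.L1 hst) hy).1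
  have h4 := nm_add_step (y - step s - st.x) s
  have e : y - step s - st.x + step s = y - st.x := by abel
  rw [e] at h4
  omega

/-- the potential of the occupied set in a box -/
theorem box_V (A : ℝ) (hA : 1 ≤ A) : ∃ C : ℝ, 0 < C ∧ ∀ (pm pM a Λ c3 : ℝ) (l : ℕ) (P : Par d),
    Reg d pm pM a A Λ c3 l P → ∀ Γ : St d, good P Γ → ∀ (z : V d) (S : Finset (V d)),
      (∀ y ∈ S, nm (y - z) ≤ 4 * P.L) →
        ∑ y ∈ S, Vp P.p (occ Γ.H) y ≤ ENNReal.ofReal (C * Λ * (P.L : ℝ) ^ 8) * rho P Γ z := by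
  refine ⟨5 ^ 16 * A ^ 2, by positivity, ?_⟩
  intro pm pM a Λ c3 l P R Γ hΓ z S hS
  have hΛ := R.hΛ
  unfold Vp
  rw [Finset.sum_comm]
  calc ∑ w ∈ occ Γ.H, ∑ y ∈ S, t2 d P.p (y - w)
      ≤ ∑ w ∈ occ Γ.H, ENNReal.ofReal ((1 + ((4 : ℕ) : ℝ)) ^ 16 * A ^ 2 * (P.L : ℝ) ^ 4) *
          dmp P.L (z - w) :=
        Finset.sum_le_sum fun w _ => box_t2 R.kin S z w 4 hS
    _ = ENNReal.ofReal ((1 + ((4 : ℕ) : ℝ)) ^ 16 * A ^ 2 * (P.L : ℝ) ^ 4) *
          ∑ w ∈ occ Γ.H, dmp P.L (z - w) := by rw [Finset.mul_sum]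
    _ ≤ ENNReal.ofReal ((1 + ((4 : ℕ) : ℝ)) ^ 16 * A ^ 2 * (P.L : ℝ) ^ 4) *
          (P.b1 * rho P Γ z) := mul_le_mul' le_rfl (occ_rho P Γ hΓ z)
    _ = ENNReal.ofReal (5 ^ 16 * A ^ 2 * Λ * (P.L : ℝ) ^ 8) * rho P Γ z := by
        rw [R.b1_eq, Ss_mul _ _ (by positivity)]
        congr 2
        push_cast
        ring

/-- the number of occupied points in a box -/
theorem box_occ : ∃ C : ℝ, 0 < C ∧ ∀ (pm pM a A Λ c3 : ℝ) (l : ℕ) (P : Par d),
    Reg d pm pM a A Λ c3 l P → ∀ Γ : St d, good P Γ → ∀ (z : V d) (S : Finset (V d)),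
      (∀ y ∈ S, nm (y - z) ≤ 4 * P.L) →
        ((occ Γ.H ∩ S).card : ℝ≥0∞) ≤ ENNReal.ofReal (C * Λ * (P.L : ℝ) ^ 4) * rho P Γ z := by
  refine ⟨5 ^ 16, by positivity, ?_⟩
  intro pm pM a A Λ c3 l P R Γ hΓ z S hS
  have hΛ := R.hΛ
  calc ((occ Γ.H ∩ S).card : ℝ≥0∞) = ∑ w ∈ occ Γ.H ∩ S, 1 := by
        rw [Finset.sum_const, nsmul_eq_mul, mul_one]
    _ ≤ ∑ w ∈ occ Γ.H ∩ S, ENNReal.ofReal ((1 + ((4 : ℕ) : ℝ)) ^ 16) * dmp P.L (z - w) := by
        refine Finset.sum_le_sum fun w hw => ?_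
        refine one_le_dmp R.kin.L1 ?_
        have h := hS w (Finset.mem_inter.1 hw).2
        rwa [← nm_neg, neg_sub] at h
    _ ≤ ∑ w ∈ occ Γ.H, ENNReal.ofReal ((1 + ((4 : ℕ) : ℝ)) ^ 16) * dmp P.L (z - w) :=
        Finset.sum_le_sum_of_subset Finset.inter_subset_left
    _ = ENNReal.ofReal ((1 + ((4 : ℕ) : ℝ)) ^ 16) * ∑ w ∈ occ Γ.H, dmp P.L (z - w) := by
        rw [Finset.mul_sum]
    _ ≤ ENNReal.ofReal ((1 + ((4 : ℕ) : ℝ)) ^ 16) * (P.b1 * rho P Γ z) :=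
        mul_le_mul' le_rfl (occ_rho P Γ hΓ z)
    _ = ENNReal.ofReal (5 ^ 16 * Λ * (P.L : ℝ) ^ 4) * rho P Γ z := by
        rw [R.b1_eq, Ss_mul _ _ (by positivity)]
        congr 2
        push_cast
        ring

theorem s1_le (A : ℝ) (hA : 1 ≤ A) : ∃ C : ℝ, 0 < C ∧ ∀ (pm pM a Λ c3 : ℝ) (l : ℕ) (P : Par d),
    Reg d pm pM a A Λ c3 l P → ∀ Γ st : St d, good P Γ → good P st → ∀ v ∈ steps P.i0,
      S1 P Γ st v ≤ ENNReal.ofReal (C * Λ / (P.L : ℝ) ^ 8) * rho P Γ st.z := by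
  obtain ⟨C, hC, h⟩ := box_V (d := d) A hA
  refine ⟨(2 * d + 1) * A * C, by positivity, ?_⟩
  intro pm pM a Λ c3 l P R Γ st hΓ hst v hv
  have hΛ := R.hΛ
  have hL : (0 : ℝ) < P.L := by
    have := R.kin.L1
    positivity
  have h2 := h pm pM a Λ c3 l P R Γ hΓ st.z (cell P.L (st.z + (P.L : ℤ) • v)) fun y hy => by
    have := Ss_cell hv hy
    omega
  calc S1 P Γ st v ≤ ∑ y ∈ cell P.L (st.z + (P.L : ℤ) • v), ∑ _s : Dir d,
        ENNReal.ofReal (A / (P.L : ℝ) ^ 16) * Vp P.p (occ Γ.H) y := by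
        unfold S1
        refine Finset.sum_le_sum fun y hy => Finset.sum_le_sum fun s _ => ?_
        exact mul_le_mul' (Ss_tau R.kin hst hv hy s) le_rfl
    _ = ENNReal.ofReal (2 * d) * (ENNReal.ofReal (A / (P.L : ℝ) ^ 16) *
        ∑ y ∈ cell P.L (st.z + (P.L : ℤ) • v), Vp P.p (occ Γ.H) y) := by
        simp only [Ss_sum_dir]
        rw [Finset.mul_sum, Finset.mul_sum]
    _ ≤ ENNReal.ofReal (2 * d) * (ENNReal.ofReal (A / (P.L : ℝ) ^ 16) *
        (ENNReal.ofReal (C * Λ * (P.L : ℝ) ^ 8) * rho P Γ st.z)) := by gcongr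
    _ = ENNReal.ofReal (2 * d * (A / (P.L : ℝ) ^ 16 * (C * Λ * (P.L : ℝ) ^ 8))) *
        rho P Γ st.z := by
        rw [Ss_mul _ _ (by positivity), Ss_mul _ _ (by positivity), mul_assoc]
    _ ≤ ENNReal.ofReal ((2 * d + 1) * A * C * Λ / (P.L : ℝ) ^ 8) * rho P Γ st.z := by
        refine mul_le_mul' (ENNReal.ofReal_le_ofReal ?_) le_rfl
        have e : 2 * (d : ℝ) * (A / (P.L : ℝ) ^ 16 * (C * Λ * (P.L : ℝ) ^ 8)) =
            2 * d * A * C * Λ / (P.L : ℝ) ^ 8 := by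
          field_simp
        rw [e]
        gcongr
        linarith

theorem s2_le (pm A : ℝ) (hpm : 0 < pm) (hA : 1 ≤ A) : ∃ C : ℝ, 0 < C ∧
    ∀ (pM a Λ c3 : ℝ) (l : ℕ) (P : Par d), Reg d pm pM a A Λ c3 l P → ∀ Γ st : St d, good P Γ →
      good P st → ∀ v ∈ steps P.i0,
        S2 P Γ st v ≤ ENNReal.ofReal (C * (P.L : ℝ) ^ 2) * Vp P.p (occ Γ.H \ occ st.H) st.x := by
  refine ⟨(2 * d + 1) * (2 * d + 1) * A * (1 / pm), by positivity, ?_⟩
  intro pM a Λ c3 l P R Γ st hΓ hst v hv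
  have K := R.kin
  have h1 : ∀ (w : V d) (s' : Dir d), ∑ y ∈ cell P.L (st.z + (P.L : ℤ) • v), ∑ s : Dir d,
      Tr P.p st.x (y - step s) (w + step s') ≤ ENNReal.ofReal (2 * d) *
        (ENNReal.ofReal (A * (P.L : ℝ) ^ 2) * (ENNReal.ofReal (1 / pm) * t2 d P.p (st.x - w))) := by
    intro w s'
    rw [Finset.sum_comm, ← Ss_sum_dir]
    refine Finset.sum_le_sum fun s _ => ?_
    refine (Tr_y K (cell P.L (st.z + (P.L : ℤ) • v)) st.x (step s) (w + step s')).trans ?_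
    refine mul_le_mul' le_rfl ?_
    have h2 := t2_nb' K (w - st.x) s'
    rw [t2_comm K.h0 K.h1 w st.x] at h2
    have e : w + step s' - st.x = w - st.x + step s' := by abel
    rw [e]
    exact h2
  calc S2 P Γ st v ≤ ∑ w ∈ occ Γ.H \ occ st.H, ∑ _s' : Dir d, ENNReal.ofReal (2 * d) *
        (ENNReal.ofReal (A * (P.L : ℝ) ^ 2) * (ENNReal.ofReal (1 / pm) * t2 d P.p (st.x - w))) := by
        unfold S2
        exact Finset.sum_le_sum fun w _ => Finset.sum_le_sum fun s' _ => h1 w s'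
    _ = ENNReal.ofReal (2 * d * (2 * d * (A * (P.L : ℝ) ^ 2 * (1 / pm)))) *
        Vp P.p (occ Γ.H \ occ st.H) st.x := by
        unfold Vp
        simp only [Ss_sum_dir]
        rw [Finset.mul_sum]
        refine Finset.sum_congr rfl fun w _ => ?_
        have hA0 : 0 ≤ A := by linarith
        rw [Ss_mul _ _ (by positivity), Ss_mul _ _ (by positivity), Ss_mul _ _ (by positivity)]
        simp only [mul_assoc]
    _ ≤ _ := by
        refine mul_le_mul' (ENNReal.ofReal_le_ofReal ?_) le_rfl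
        have e : 2 * (d : ℝ) * (2 * d * (A * (P.L : ℝ) ^ 2 * (1 / pm))) =
            (2 * d) * (2 * d) * A * (1 / pm) * (P.L : ℝ) ^ 2 := by ring
        rw [e]
        have hd : (0 : ℝ) ≤ d := Nat.cast_nonneg _
        gcongr <;> linarith

theorem s5_le (A : ℝ) (hA : 1 ≤ A) : ∃ C : ℝ, 0 < C ∧ ∀ (pm pM a Λ c3 : ℝ) (l : ℕ) (P : Par d),
    Reg d pm pM a A Λ c3 l P → ∀ Γ st : St d, good P Γ → good P st → ∀ v ∈ steps P.i0,
      S5 P Γ st v ≤ ENNReal.ofReal (C * Λ / (P.L : ℝ) ^ 12) * rho P Γ st.z := by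
  obtain ⟨C, hC, h⟩ := box_occ (d := d)
  refine ⟨(2 * d + 1) * A * C, by positivity, ?_⟩
  intro pm pM a Λ c3 l P R Γ st hΓ hst v hv
  have hΛ := R.hΛ
  have hL : (0 : ℝ) < P.L := by
    have := R.kin.L1
    positivity
  have h2 := h pm pM a A Λ c3 l P R Γ hΓ st.z (cell P.L (st.z + (P.L : ℤ) • v)) fun y hy => by
    have := Ss_cell hv hy
    omega
  calc S5 P Γ st v ≤ ∑ w ∈ occ Γ.H ∩ cell P.L (st.z + (P.L : ℤ) • v), ∑ _s : Dir d,
        ENNReal.ofReal (A / (P.L : ℝ) ^ 16) := by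
        unfold S5
        refine Finset.sum_le_sum fun w hw => Finset.sum_le_sum fun s _ => ?_
        exact Ss_tau R.kin hst hv (Finset.mem_inter.1 hw).2 s
    _ = ENNReal.ofReal (2 * d) * (ENNReal.ofReal (A / (P.L : ℝ) ^ 16) *
        ((occ Γ.H ∩ cell P.L (st.z + (P.L : ℤ) • v)).card : ℝ≥0∞)) := by
        simp only [Ss_sum_dir]
        rw [Finset.sum_const, nsmul_eq_mul]
        ring
    _ ≤ ENNReal.ofReal (2 * d) * (ENNReal.ofReal (A / (P.L : ℝ) ^ 16) *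
        (ENNReal.ofReal (C * Λ * (P.L : ℝ) ^ 4) * rho P Γ st.z)) := by gcongr
    _ = ENNReal.ofReal (2 * d * (A / (P.L : ℝ) ^ 16 * (C * Λ * (P.L : ℝ) ^ 4))) *
        rho P Γ st.z := by
        rw [Ss_mul _ _ (by positivity), Ss_mul _ _ (by positivity), mul_assoc]
    _ ≤ ENNReal.ofReal ((2 * d + 1) * A * C * Λ / (P.L : ℝ) ^ 12) * rho P Γ st.z := by
        refine mul_le_mul' (ENNReal.ofReal_le_ofReal ?_) le_rfl
        have e : 2 * (d : ℝ) * (A / (P.L : ℝ) ^ 16 * (C * Λ * (P.L : ℝ) ^ 4)) =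
            2 * d * A * C * Λ / (P.L : ℝ) ^ 12 := by
          field_simp
        rw [e]
        gcongr
        linarith

lemma Ss_rho_x (P : Par d) (Γ : St d) (z : V d) : dmp P.L (z - Γ.x) ≤ rho P Γ z := by
  unfold rho
  exact le_add_self

theorem s6_le (A : ℝ) (hA : 1 ≤ A) : ∃ C : ℝ, 0 < C ∧ ∀ (pm pM a Λ c3 : ℝ) (l : ℕ) (P : Par d),
    Reg d pm pM a A Λ c3 l P → ∀ Γ st : St d, good P Γ → good P st → ∀ v ∈ steps P.i0,
      S6 P Γ st v ≤ ENNReal.ofReal (C / (P.L : ℝ) ^ 16) * rho P Γ st.z := by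
  refine ⟨A * 5 ^ 16, by positivity, ?_⟩
  intro pm pM a Λ c3 l P R Γ st hΓ hst v hv
  unfold S6
  split_ifs with hh
  swap
  · exact zero_le
  obtain ⟨e, he, hy⟩ := hh
  have K := R.kin
  obtain ⟨z', x', H'⟩ := Γ
  cases H' with
  | nil => simp at he
  | cons e0 H0 =>
    have he' : e0 = e := by simpa using he
    subst he'
    obtain ⟨-, v', s, -, hx, -⟩ : gh P z' x' (e0 :: H0) := hΓ
    have h1 := (cell_dist K.L1 hv (good_cell K.L1 hst) hy).1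
    have h3 := nm_add_step (e0.y - st.x + step s) (opp s)
    have e1 : e0.y - st.x + step s + step (opp s) = e0.y - st.x := by
      rw [step_opp]; abel
    rw [e1] at h3
    have e2 : e0.y - st.x + step s = x' - st.x := by rw [hx]; abel
    rw [e2] at h3
    have h4 : P.L ≤ nm (x' - st.x) := by omega
    have h5 := tau_far K h4
    have h6 : nm (st.z - x') ≤ 4 * P.L := by
      have h7 := Ss_cell hv hy
      have h8 := nm_add_step (e0.y - st.z) s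
      have e3 : e0.y - st.z + step s = x' - st.z := by rw [hx]; abel
      rw [e3] at h8
      rw [← nm_neg, neg_sub]
      have := K.L1
      omega
    have h9 := one_le_dmp K.L1 h6
    have h10 : dmp P.L (st.z - x') ≤ rho P ⟨z', x', e0 :: H0⟩ st.z :=
      Ss_rho_x P ⟨z', x', e0 :: H0⟩ st.z
    calc tau d P.p (x' - st.x) ≤ ENNReal.ofReal (A / (P.L : ℝ) ^ 16) * 1 := by
          rw [mul_one]; exact h5
      _ ≤ ENNReal.ofReal (A / (P.L : ℝ) ^ 16) *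
          (ENNReal.ofReal ((1 + ((4 : ℕ) : ℝ)) ^ 16) * dmp P.L (st.z - x')) := by gcongr
      _ = ENNReal.ofReal (A / (P.L : ℝ) ^ 16 * (1 + ((4 : ℕ) : ℝ)) ^ 16) *
          dmp P.L (st.z - x') := Ss_mul _ _ (by positivity) _
      _ ≤ ENNReal.ofReal (A * 5 ^ 16 / (P.L : ℝ) ^ 16) * rho P ⟨z', x', e0 :: H0⟩ st.z := by
          have e5 : A / (P.L : ℝ) ^ 16 * (1 + ((4 : ℕ) : ℝ)) ^ 16 = A * 5 ^ 16 / (P.L : ℝ) ^ 16 := by
            push_cast
            ring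
          rw [e5]
          exact mul_le_mul' le_rfl h10

/-- the potentials of the occupied set, everywhere -/
theorem occ_pot (A : ℝ) (hA : 1 ≤ A) : ∃ C : ℝ, 0 < C ∧ ∀ (pm pM a Λ c3 : ℝ) (l : ℕ) (P : Par d),
    Reg d pm pM a A Λ c3 l P → ∀ Γ : St d, good P Γ → ∀ x : V d,
      Vp P.p (occ Γ.H) x ≤ ENNReal.ofReal (C * (l : ℝ) ^ 4) +
        ENNReal.ofReal (C * Λ) * rho P Γ x ∧
      ∑ w ∈ occ Γ.H, t4 d P.p (x - w) ≤ ENNReal.ofReal (C * (l : ℝ) ^ 8) +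
        ENNReal.ofReal (C * Λ) * rho P Γ x := by
  refine ⟨2 ^ 16 * A, by positivity, ?_⟩
  intro pm pM a Λ c3 l P R Γ hΓ x
  have K := R.kin
  have hΛ := R.hΛ
  have hl := R.hl
  have hl0 : (0 : ℝ) < l := by
    have : 0 < l := hl
    exact_mod_cast this
  have hlL : l ≤ P.L := by
    rw [R.L_eq]
    exact Nat.le_self_pow (by norm_num) l
  have hA0 : 0 ≤ A := by linarith
  have h1 : ENNReal.ofReal (2 ^ 16 * A / (l : ℝ) ^ 16) * ∑ w ∈ occ Γ.H, dmp P.L (x - w) ≤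
      ENNReal.ofReal (2 ^ 16 * A * Λ) * rho P Γ x := by
    calc ENNReal.ofReal (2 ^ 16 * A / (l : ℝ) ^ 16) * ∑ w ∈ occ Γ.H, dmp P.L (x - w)
        ≤ ENNReal.ofReal (2 ^ 16 * A / (l : ℝ) ^ 16) * (P.b1 * rho P Γ x) :=
          mul_le_mul' le_rfl (occ_rho P Γ hΓ x)
      _ = ENNReal.ofReal (2 ^ 16 * A / (l : ℝ) ^ 16 * (Λ * (P.L : ℝ) ^ 4)) * rho P Γ x := by
          rw [R.b1_eq, Ss_mul _ _ (by positivity)]
      _ = ENNReal.ofReal (2 ^ 16 * A * Λ) * rho P Γ x := by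
          congr 2
          rw [R.L_eq]
          push_cast
          field_simp
  have h2 : A ≤ 2 ^ 16 * A := by nlinarith
  constructor
  · refine (pack2 K (occ Γ.H) x hl hlL).trans (add_le_add (ENNReal.ofReal_le_ofReal ?_) h1)
    gcongr
  · refine (pack4 K (occ Γ.H) x hl hlL).trans (add_le_add (ENNReal.ofReal_le_ofReal ?_) h1)
    gcongr

end CG
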