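import Pool.Agent.H70.CG.B1
import Pool.Agent.H70.CG.Ss

/-!
JOB CG-B1n (MP_0d9ad5_pr, notes 2718, 2748, (B1)). The numbers (adapt H70/CF/B1n.lean): apply `B1` with
`m0 = c3 s L^2`, `a = 4 C2 / c3` (`C2` of `s2_le`), `cv = Cv L^2`, `gg = C' / L^8`. `m0⁻¹ s = 1/(c3 L^2)`,
`m0⁻¹ ≤ 1/16` (`Reg.K0`). hoff: `s1`: `a C Λ L^(-8)/(c3 L^2)`; `s2`: `2 C2/c3 V ≤ a V`; `s5`: `Cv L^2 C Λ L^(-12)/(c3 L^2)`;
`s6`: `Cv L^2 C L^(-16)/16`. hG: `rw_rho`, `gg C ≤ 1` for `L` large. hon: `|e.A| ≤ b1` (`good_card`);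
`∑ Vp (y + step s) ≤ 2 d / pm ∑ Vp y ≤ C 3 b3` (`t2_nb'`, `t2_comm`, `ent_E4`), `ent_adj`: `3 b4 ≤ c3 L^2/8`;
`Vp (Γ.x) ≤ C l^4 + C Λ rho ≤ L^2` for `l` large (`occ_pot`, `rho_le`, `L = l^4`).
-/

namespace CG

open H5DF H95LBD MeasureTheory
open scoped ENNReal

variable {d : ℕ}

/-! ### numbers -/

lemma B1n_comb {u b cv x1 x2 x5 x6 : ℝ} (hu : 0 ≤ u) (hb : 0 ≤ b) (hcv : 0 ≤ cv)
    (h1 : 0 ≤ x1) (h5 : 0 ≤ x5) (h6 : 0 ≤ x6) (R V : ℝ≥0∞) :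
    ENNReal.ofReal u * (ENNReal.ofReal b * (ENNReal.ofReal x1 * R) +
      2 * (ENNReal.ofReal x2 * V) + ENNReal.ofReal cv * (ENNReal.ofReal x5 * R)) +
      ENNReal.ofReal (1 / 16) * (ENNReal.ofReal cv * (ENNReal.ofReal x6 * R)) =
    ENNReal.ofReal (u * (2 * x2)) * V +
      ENNReal.ofReal (u * (b * x1 + cv * x5) + 1 / 16 * (cv * x6)) * R := by
  have e1 : ENNReal.ofReal (u * (2 * x2)) =
      ENNReal.ofReal u * (2 * ENNReal.ofReal x2) := by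
    rw [ENNReal.ofReal_mul hu, ENNReal.ofReal_mul (by norm_num), ENNReal.ofReal_ofNat]
  have e2 : ENNReal.ofReal (u * (b * x1 + cv * x5) + 1 / 16 * (cv * x6)) =
      ENNReal.ofReal u * (ENNReal.ofReal b * ENNReal.ofReal x1 +
        ENNReal.ofReal cv * ENNReal.ofReal x5) +
      ENNReal.ofReal (1 / 16) * (ENNReal.ofReal cv * ENNReal.ofReal x6) := by
    rw [ENNReal.ofReal_add (by positivity) (by positivity), ENNReal.ofReal_mul hu,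
      ENNReal.ofReal_add (by positivity) (by positivity), ENNReal.ofReal_mul hb,
      ENNReal.ofReal_mul hcv, ENNReal.ofReal_mul (by norm_num : (0 : ℝ) ≤ 1 / 16),
      ENNReal.ofReal_mul hcv]
  rw [e1, e2]
  ring

lemma B1n_comb2 {u cv y1 y2 y3 : ℝ} (hu : 0 ≤ u) (hcv : 0 ≤ cv)
    (h1 : 0 ≤ y1) (h2 : 0 ≤ y2) (h3 : 0 ≤ y3) :
    ENNReal.ofReal u * ENNReal.ofReal y1 + ENNReal.ofReal u * (ENNReal.ofReal cv * ENNReal.ofReal y2) +
      ENNReal.ofReal (1 / 16) * (2 * ENNReal.ofReal cv) +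
      ENNReal.ofReal (1 / 16) * ENNReal.ofReal y3 =
    ENNReal.ofReal (u * y1 + u * (cv * y2) + 1 / 16 * (2 * cv) + 1 / 16 * y3) := by
  rw [ENNReal.ofReal_add (by positivity) (by positivity),
    ENNReal.ofReal_add (by positivity) (by positivity),
    ENNReal.ofReal_add (by positivity) (by positivity), ENNReal.ofReal_mul hu,
    ENNReal.ofReal_mul hu, ENNReal.ofReal_mul hcv,
    ENNReal.ofReal_mul (by norm_num : (0 : ℝ) ≤ 1 / 16),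
    ENNReal.ofReal_mul (by norm_num : (0 : ℝ) ≤ 1 / 16),
    ENNReal.ofReal_mul (by norm_num : (0 : ℝ) ≤ 2), ENNReal.ofReal_ofNat]

lemma B1n_m0 {c3 s L : ℝ} (hc3 : 0 < c3) (hs : 0 < s) (hL : 1 ≤ L) (hK : 16 / c3 ≤ s * L ^ 2) :
    (ENNReal.ofReal (c3 * s * L ^ 2))⁻¹ * ENNReal.ofReal s = ENNReal.ofReal (1 / (c3 * L ^ 2)) ∧
    (ENNReal.ofReal (c3 * s * L ^ 2))⁻¹ ≤ ENNReal.ofReal (1 / 16) := by
  have hL0 : 0 < L := by linarith
  constructor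
  · rw [← ENNReal.ofReal_inv_of_pos (by positivity), ← ENNReal.ofReal_mul (by positivity)]
    congr 1
    field_simp
  · rw [← ENNReal.ofReal_inv_of_pos (by positivity)]
    apply ENNReal.ofReal_le_ofReal
    rw [one_div]
    apply inv_anti₀ (by norm_num)
    rw [div_le_iff₀ hc3] at hK
    linarith

/-- The potential at a neighbour. -/
lemma B1n_Vp {p pm pM a A : ℝ} {L : ℕ} (K : KIn d p L pm pM a A)
    (U : Finset (V d)) (y : V d) (s : Dir d) :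
    Vp p U (y + step s) ≤ ENNReal.ofReal (1 / pm) * Vp p U y := by
  unfold Vp
  rw [Finset.mul_sum]
  refine Finset.sum_le_sum fun w _ => ?_
  have e : y + step s - w = y - w + step s := by abel
  rw [e]
  exact t2_nb' K (y - w) s

lemma B1n_cardDir : (Fintype.card (Dir d) : ℝ≥0∞) = ENNReal.ofReal (2 * d) := by
  rw [Fintype.card_prod, Fintype.card_fin, Fintype.card_bool, ← ENNReal.ofReal_natCast]
  congr 1
  push_cast
  ring

/-- The first term of `hon`. -/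
lemma B1n_T1 {pm pM a A Λ c3 b : ℝ} {l : ℕ} {P : Par d} (hb : 0 ≤ b)
    (h : Reg d pm pM a A Λ c3 l P) {Γ : St d} (hΓ : good P Γ) {e : Ent d}
    (he : e ∈ Γ.H) :
    ∑ y ∈ e.A, ∑ s : Dir d, (2 + ENNReal.ofReal b * Vp P.p (occ Γ.H \ e.A) (y + step s)) ≤
      ENNReal.ofReal (4 * d * Λ * (P.L : ℝ) ^ 4 +
        2 * d * b * (1 / pm) * (c3 / 8 * (P.L : ℝ) ^ 4)) := by
  have hΛ := h.hΛ
  have hc3 := h.hc3
  have hpm := h.kin.pm0
  have hcard : ((e.A.card : ℕ) : ℝ≥0∞) ≤ ENNReal.ofReal (Λ * (P.L : ℝ) ^ 4) := by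
    rw [← h.b1_eq]
    exact good_card hΓ he
  have hE : ∑ w ∈ e.A, Vp P.p (occ Γ.H \ e.A) w ≤ ENNReal.ofReal (c3 / 8 * (P.L : ℝ) ^ 4) := by
    refine (ent_E4 P h.kin.h0 h.kin.h1 Γ hΓ e he).trans ?_
    refine (mul_le_mul' le_rfl h.b3_le).trans (le_of_eq ?_)
    rw [← ENNReal.ofReal_ofNat, ← ENNReal.ofReal_mul (by norm_num)]
    congr 1
    ring
  have e1 : ∑ y ∈ e.A, ∑ s : Dir d,
      (2 + ENNReal.ofReal b * Vp P.p (occ Γ.H \ e.A) (y + step s)) ≤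
      ∑ y ∈ e.A, (ENNReal.ofReal (2 * d) * (2 + ENNReal.ofReal b *
        (ENNReal.ofReal (1 / pm) * Vp P.p (occ Γ.H \ e.A) y))) := by
    refine Finset.sum_le_sum fun y _ => ?_
    rw [← B1n_cardDir, ← nsmul_eq_mul, ← Finset.card_univ, ← Finset.sum_const]
    refine Finset.sum_le_sum fun s _ => ?_
    exact add_le_add le_rfl (mul_le_mul' le_rfl (B1n_Vp h.kin _ y s))
  refine e1.trans ?_
  rw [← Finset.mul_sum, Finset.sum_add_distrib, Finset.sum_const, ← Finset.mul_sum,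
    ← Finset.mul_sum, nsmul_eq_mul]
  refine (mul_le_mul' le_rfl (add_le_add (mul_le_mul' hcard le_rfl)
    (mul_le_mul' le_rfl (mul_le_mul' le_rfl hE)))).trans (le_of_eq ?_)
  have e2 : (2 : ℝ≥0∞) = ENNReal.ofReal 2 := by rw [ENNReal.ofReal_ofNat]
  rw [e2, ← ENNReal.ofReal_mul (by positivity), ← ENNReal.ofReal_mul (by positivity),
    ← ENNReal.ofReal_mul hb, ← ENNReal.ofReal_add (by positivity) (by positivity),
    ← ENNReal.ofReal_mul (by positivity)]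
  congr 1
  ring

/-- The second term of `hon`. -/
lemma B1n_T2 {pm pM a A Λ c3 : ℝ} {l : ℕ} {P : Par d}
    (h : Reg d pm pM a A Λ c3 l P) {Γ : St d} (hΓ : good P Γ) {e : Ent d}
    (he : e ∈ Γ.H) :
    ∑ w ∈ e.A, ∑ s : Dir d, (if w + step s ∈ occ Γ.H \ e.A then (1 : ℝ≥0∞) else 0) ≤
      ENNReal.ofReal (c3 / 8 * (P.L : ℝ) ^ 2) := by
  refine (ent_adj P Γ hΓ e he).trans ?_
  refine (mul_le_mul' le_rfl h.b4_le).trans (le_of_eq ?_)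
  rw [← ENNReal.ofReal_ofNat, ← ENNReal.ofReal_mul (by norm_num)]
  congr 1
  ring

/-- The real inequalities. -/
lemma B1n_real1 {b c3 C2 L : ℝ} (hc3 : 0 < c3) (hL : 1 ≤ L) (hC2 : 0 < C2)
    (hb : b = 4 * C2 / c3) :
    1 / (c3 * L ^ 2) * (2 * (C2 * L ^ 2)) ≤ b := by
  have hL0 : 0 < L := by linarith
  have hb0 : 0 < b := by rw [hb]; positivity
  have e1 : 1 / (c3 * L ^ 2) * (2 * (C2 * L ^ 2)) = b / 2 := by
    rw [hb]
    field_simp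
    ring
  rw [e1]
  linarith

lemma B1n_real2 {b c3 C1 C5 C6 Cv Λ L : ℝ} (hc3 : 0 < c3) (hL : 1 ≤ L) (hb : 0 < b)
    (hC1 : 0 < C1) (hC5 : 0 < C5) (hC6 : 0 < C6) (hCv : 0 < Cv) (hΛ : 0 < Λ) :
    1 / (c3 * L ^ 2) * (b * (C1 * Λ / L ^ 8) + Cv * L ^ 2 * (C5 * Λ / L ^ 12)) +
      1 / 16 * (Cv * L ^ 2 * (C6 / L ^ 16)) ≤
    (b * C1 * Λ / c3 + Cv * C5 * Λ / c3 + Cv * C6) / L := by
  have hL0 : 0 < L := by linarith
  have e1 : 1 / (c3 * L ^ 2) * (b * (C1 * Λ / L ^ 8) + Cv * L ^ 2 * (C5 * Λ / L ^ 12)) +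
      1 / 16 * (Cv * L ^ 2 * (C6 / L ^ 16)) =
      (b * C1 * Λ / c3) * (1 / L ^ 10) + (Cv * C5 * Λ / c3) * (1 / L ^ 12) +
        (Cv * C6) * (1 / 16 * (1 / L ^ 14)) := by
    field_simp
  have e2 : (b * C1 * Λ / c3 + Cv * C5 * Λ / c3 + Cv * C6) / L =
      (b * C1 * Λ / c3) * (1 / L) + (Cv * C5 * Λ / c3) * (1 / L) + (Cv * C6) * (1 / L) := by
    ring
  have hp : ∀ n : ℕ, 1 ≤ n → 1 / L ^ n ≤ 1 / L := by
    intro n hn
    apply one_div_le_one_div_of_le hL0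
    calc L = L ^ 1 := (pow_one L).symm
      _ ≤ L ^ n := pow_le_pow_right₀ hL hn
  have h7 : 0 < 1 / L ^ 14 := by positivity
  have h5 : 1 / 16 * (1 / L ^ 14) ≤ 1 / L := by
    have := hp 14 (by norm_num)
    linarith
  rw [e1, e2]
  have := mul_le_mul_of_nonneg_left (hp 10 (by norm_num)) (by positivity : 0 ≤ b * C1 * Λ / c3)
  have := mul_le_mul_of_nonneg_left (hp 12 (by norm_num)) (by positivity : 0 ≤ Cv * C5 * Λ / c3)
  have := mul_le_mul_of_nonneg_left h5 (by positivity : 0 ≤ Cv * C6)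
  linarith

lemma B1n_real3 {dd a c3 Λ K L Cv : ℝ} (hc3 : 0 < c3) (hL : 1 ≤ L) (ha : 0 < a)
    (hdd : 0 ≤ dd) (hΛ : 0 < Λ) (hK : 0 < K)
    (hCv : Cv = 2 * (4 * dd * Λ / c3 + 2 * dd * a * K / 8 + (2 + a) / 16) + 1) :
    1 / (c3 * L ^ 2) * (4 * dd * Λ * L ^ 4 + 2 * dd * a * K * (c3 / 8 * L ^ 4)) +
      1 / (c3 * L ^ 2) * (Cv * L ^ 2 * (c3 / 8 * L ^ 2)) + 1 / 16 * (2 * (Cv * L ^ 2)) +
      1 / 16 * (2 + a * (1 * L ^ 2)) ≤ Cv * L ^ 2 := by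
  have hL0 : 0 < L := by linarith
  have e1 : 1 / (c3 * L ^ 2) * (4 * dd * Λ * L ^ 4 + 2 * dd * a * K * (c3 / 8 * L ^ 4)) =
      (4 * dd * Λ / c3 + 2 * dd * a * K / 8) * L ^ 2 := by
    field_simp
  have e2 : 1 / (c3 * L ^ 2) * (Cv * L ^ 2 * (c3 / 8 * L ^ 2)) = Cv / 8 * L ^ 2 := by
    field_simp
  rw [e1, e2]
  have h1 : 1 ≤ L ^ 2 := one_le_pow₀ hL
  set X : ℝ := 4 * dd * Λ / c3 + 2 * dd * a * K / 8 with hX
  have hX0 : 0 ≤ X := by positivity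
  have hCv' : Cv = 2 * X + (2 + a) / 8 + 1 := by rw [hCv]; ring
  have h2 : 1 / 16 * (2 + a * (1 * L ^ 2)) ≤ (2 + a) / 16 * L ^ 2 := by nlinarith
  have h3 : X * L ^ 2 + Cv / 8 * L ^ 2 + 1 / 16 * (2 * (Cv * L ^ 2)) + (2 + a) / 16 * L ^ 2 ≤
      Cv * L ^ 2 := by
    have h4 : X + Cv / 8 + Cv / 8 + (2 + a) / 16 ≤ Cv := by
      rw [hCv']
      linarith
    calc X * L ^ 2 + Cv / 8 * L ^ 2 + 1 / 16 * (2 * (Cv * L ^ 2)) + (2 + a) / 16 * L ^ 2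
        = (X + Cv / 8 + Cv / 8 + (2 + a) / 16) * L ^ 2 := by ring
      _ ≤ Cv * L ^ 2 := mul_le_mul_of_nonneg_right h4 (by positivity)
  linarith

theorem suffix_bound (hd : 9 ≤ d) (pm pM a A Λ c3 : ℝ) (hpm : 0 < pm) (hA : 1 ≤ A) (hΛ : 1 ≤ Λ)
    (hc3 : 0 < c3) : ∃ (Cv : ℝ) (l0 : ℕ), 0 < Cv ∧ ∀ (l : ℕ) (P : Par d), l0 ≤ l →
      Reg d pm pM a A Λ c3 l P → ∀ Γ : St d, good P Γ → ∀ (r : ℕ) (st : St d), good P st →
        st.x ∈ occ Γ.H → (Op P (kernG P Γ) (epG P Γ))^[r] (fun _ => 1) st ≤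
          ENNReal.ofReal (Cv * (P.L : ℝ) ^ 2) := by
  obtain ⟨C1, hC1, hS1⟩ := s1_le (d := d) A hA
  obtain ⟨C2, hC2, hS2⟩ := s2_le (d := d) pm A hpm hA
  obtain ⟨C5, hC5, hS5⟩ := s5_le (d := d) A hA
  obtain ⟨C6, hC6, hS6⟩ := s6_le (d := d) A hA
  obtain ⟨C7, hC7, hrw⟩ := rw_rho (d := d) (by omega)
  obtain ⟨C8, hC8, hrl⟩ := rho_le (d := d) (by omega)
  obtain ⟨C9, hC9, hpot⟩ := occ_pot (d := d) A hA
  have hΛ0 : 0 < Λ := by linarith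
  set b : ℝ := 4 * C2 / c3 with hb
  have hb0 : 0 < b := by positivity
  set K : ℝ := 1 / pm with hK
  have hK0 : 0 < K := by positivity
  set Cv : ℝ := 2 * (4 * d * Λ / c3 + 2 * d * b * K / 8 + (2 + b) / 16) + 1 with hCv
  have hCv1 : 1 ≤ Cv := by
    have : 0 ≤ 4 * d * Λ / c3 + 2 * d * b * K / 8 + (2 + b) / 16 := by positivity
    linarith
  have hCv0 : 0 < Cv := by linarith
  set C' : ℝ := b * C1 * Λ / c3 + Cv * C5 * Λ / c3 + Cv * C6 with hC'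
  have hC'0 : 0 < C' := by positivity
  obtain ⟨l2, hl2⟩ := exists_nat_ge (2 * C9 + 2 * (C9 * Λ * C8))
  obtain ⟨l3, hl3⟩ := exists_nat_ge (C' * C7)
  refine ⟨Cv, l2 + l3 + 1, hCv0, fun l P hl hR Γ hΓ r st hst hx => ?_⟩
  have hl1 : 1 ≤ l := hR.hl
  have hL1 : 1 ≤ P.L := hR.kin.L1
  have hLr : (1 : ℝ) ≤ P.L := by exact_mod_cast hL1
  have hL0 : (0 : ℝ) < P.L := by linarith
  have hlr : (1 : ℝ) ≤ l := by exact_mod_cast hl1
  have hlL : (l : ℝ) ≤ P.L := by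
    have : l ≤ P.L := by
      rw [hR.L_eq]
      exact Nat.le_self_pow (by norm_num) l
    exact_mod_cast this
  have hLa : 2 * C9 + 2 * (C9 * Λ * C8) ≤ (l : ℝ) := by
    have : (l2 : ℝ) ≤ l := by exact_mod_cast (by omega : l2 ≤ l)
    linarith
  have hLb : C' * C7 ≤ (P.L : ℝ) := by
    have : (l3 : ℝ) ≤ l := by exact_mod_cast (by omega : l3 ≤ l)
    linarith
  have hs : 0 < P.s := by
    have h1 := hR.K0
    have h2 : 0 < 16 / c3 := by positivity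
    rcases hR.s0.lt_or_eq with h | h
    · exact h
    · rw [← h, zero_mul] at h1
      linarith
  obtain ⟨hm1, hm2⟩ := B1n_m0 hc3 hs hLr hR.K0
  set m0 : ℝ≥0∞ := ENNReal.ofReal (c3 * P.s * (P.L : ℝ) ^ 2) with hm0
  have hcv1 : (1 : ℝ≥0∞) ≤ ENNReal.ofReal (Cv * (P.L : ℝ) ^ 2) := by
    rw [← ENNReal.ofReal_one]
    apply ENNReal.ofReal_le_ofReal
    have : 1 ≤ (P.L : ℝ) ^ 2 := one_le_pow₀ hLr
    nlinarith
  refine (B1 P hL1 hR.kin.h0 hR.kin.h1 m0 (fun st' h' v hv => hR.mm_ge st' h' v hv) Γ hΓ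
    (ENNReal.ofReal b) (ENNReal.ofReal (Cv * (P.L : ℝ) ^ 2)) (ENNReal.ofReal (C' / P.L)) hcv1
    ?_ ?_ ?_ r st hst).2 hx
  · -- hoff
    intro st hst _ v hv
    set R := rho P Γ st.z with hRho
    set V' := Vp P.p (occ Γ.H \ occ st.H) st.x with hV'
    have g1 := hS1 pm pM a Λ c3 l P hR Γ st hΓ hst v hv
    have g2 := hS2 pM a Λ c3 l P hR Γ st hΓ hst v hv
    have g5 := hS5 pm pM a Λ c3 l P hR Γ st hΓ hst v hv
    have g6 := hS6 pm pM a Λ c3 l P hR Γ st hΓ hst v hv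
    rw [mul_add, ← mul_assoc, hm1]
    refine (add_le_add (mul_le_mul' le_rfl (add_le_add (add_le_add
      (mul_le_mul' le_rfl g1) (mul_le_mul' le_rfl g2))
      (mul_le_mul' le_rfl g5))) (mul_le_mul' hm2 (mul_le_mul' le_rfl g6))).trans ?_
    rw [B1n_comb (by positivity) hb0.le (by positivity) (by positivity) (by positivity)
      (by positivity)]
    refine add_le_add (mul_le_mul' (ENNReal.ofReal_le_ofReal ?_) le_rfl)
      (mul_le_mul' (ENNReal.ofReal_le_ofReal ?_) le_rfl)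
    · exact B1n_real1 hc3 hLr hC2 hb
    · exact B1n_real2 hc3 hLr hb0 hC1 hC5 hC6 hCv0 hΛ0
  · -- hG
    intro r z
    refine (mul_le_mul' le_rfl (hrw P hL1 Γ hΓ true r z)).trans ?_
    rw [← ENNReal.ofReal_mul (by positivity), ← ENNReal.ofReal_one]
    apply ENNReal.ofReal_le_ofReal
    rw [div_mul_eq_mul_div, div_le_one hL0]
    exact hLb
  · -- hon
    intro e he
    have g1 := B1n_T1 hb0.le hR hΓ he
    have g2 := B1n_T2 hR hΓ he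
    have g3 : 2 + ENNReal.ofReal b * Vp P.p (occ Γ.H) Γ.x ≤
        ENNReal.ofReal (2 + b * (1 * (P.L : ℝ) ^ 2)) := by
      rw [ENNReal.ofReal_add (by norm_num) (by positivity), ENNReal.ofReal_mul hb0.le,
        ENNReal.ofReal_ofNat]
      refine add_le_add le_rfl (mul_le_mul' le_rfl ?_)
      refine (hpot pm pM a Λ c3 l P hR Γ hΓ Γ.x).1.trans ?_
      refine (add_le_add le_rfl (mul_le_mul' le_rfl (hrl P hL1 Γ hΓ Γ.x))).trans ?_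
      rw [← ENNReal.ofReal_mul (by positivity), ← ENNReal.ofReal_add (by positivity) (by positivity)]
      apply ENNReal.ofReal_le_ofReal
      have hLl : (P.L : ℝ) = (l : ℝ) ^ 4 := by rw [hR.L_eq]; push_cast; ring
      have h4 : 1 ≤ (l : ℝ) ^ 4 := one_le_pow₀ hlr
      have h5 : (l : ℝ) ≤ (l : ℝ) ^ 4 := by
        calc (l : ℝ) = (l : ℝ) ^ 1 := (pow_one _).symm
          _ ≤ (l : ℝ) ^ 4 := pow_le_pow_right₀ hlr (by norm_num)
      have h6 : 0 < C9 * Λ * C8 := by positivity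
      rw [hLl]
      have h7 : C9 * (l : ℝ) ^ 4 ≤ (l : ℝ) / 2 * (l : ℝ) ^ 4 - (C9 * Λ * C8) * (l : ℝ) ^ 4 := by
        have : C9 ≤ (l : ℝ) / 2 - C9 * Λ * C8 := by linarith
        nlinarith
      nlinarith
    have e1 : m0⁻¹ * (ENNReal.ofReal P.s *
          ∑ y ∈ e.A, ∑ s : Dir d, (2 + ENNReal.ofReal b * Vp P.p (occ Γ.H \ e.A) (y + step s)) +
        ENNReal.ofReal P.s * ENNReal.ofReal (Cv * (P.L : ℝ) ^ 2) *
          ∑ y ∈ e.A, ∑ s : Dir d, (if y + step s ∈ occ Γ.H \ e.A then 1 else 0) +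
        2 * ENNReal.ofReal (Cv * (P.L : ℝ) ^ 2) +
          (2 + ENNReal.ofReal b * Vp P.p (occ Γ.H) Γ.x)) =
        (m0⁻¹ * ENNReal.ofReal P.s) *
          ∑ y ∈ e.A, ∑ s : Dir d, (2 + ENNReal.ofReal b * Vp P.p (occ Γ.H \ e.A) (y + step s)) +
        (m0⁻¹ * ENNReal.ofReal P.s) * (ENNReal.ofReal (Cv * (P.L : ℝ) ^ 2) *
          ∑ y ∈ e.A, ∑ s : Dir d, (if y + step s ∈ occ Γ.H \ e.A then 1 else 0)) +
        m0⁻¹ * (2 * ENNReal.ofReal (Cv * (P.L : ℝ) ^ 2)) +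
        m0⁻¹ * (2 + ENNReal.ofReal b * Vp P.p (occ Γ.H) Γ.x) := by
      ring
    rw [e1, hm1]
    refine (add_le_add (add_le_add (add_le_add (mul_le_mul' le_rfl g1)
      (mul_le_mul' le_rfl (mul_le_mul' le_rfl g2))) (mul_le_mul' hm2 le_rfl))
      (mul_le_mul' hm2 g3)).trans ?_
    rw [B1n_comb2 (by positivity) (by positivity) (by positivity) (by positivity) (by positivity)]
    apply ENNReal.ofReal_le_ofReal
    exact B1n_real3 hc3 hLr hb0 (Nat.cast_nonneg d) hΛ0 hK0 hCv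

end CG
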