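import Pool.Agent.H70.CG.Step
import Pool.Agent.H70.CG.StepOn
import Pool.Agent.H70.CG.Rw

/-!
PORT CG-B1 (MP_0d9ad5_pr, note 2718, (B1)). Induction on `r` with `step_off`, `step_on`, `Op_eq`,
`Function.iterate_succ_apply'`. `Gr (r+1) z = Mo (Gr r) z + gg rho z` (`Mo_const`, `Mo_add`, `Mo_mul`,
`Mo_sum`, `Function.iterate_succ_apply'`, `Finset.sum_range_succ'`).
-/

namespace CG

open H5DF H95LBD MeasureTheory
open scoped ENNReal

variable {d : ℕ}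

/-- `1 + gg ∑_{i<r} Mo^i rho`. -/
noncomputable def Gr (P : Par d) (Γ : St d) (gg : ℝ≥0∞) (r : ℕ) (z : V d) : ℝ≥0∞ :=
  1 + gg * ∑ i ∈ Finset.range r, (Mo P true)^[i] (rho P Γ) z

/-- The recursion for `Gr`. -/
lemma B1_Gr (P : Par d) (Γ : St d) (gg : ℝ≥0∞) (r : ℕ) (z : V d) :
    Gr P Γ gg (r + 1) z = Mo P true (Gr P Γ gg r) z + gg * rho P Γ z := by
  have h1 : Gr P Γ gg (r + 1) z = 1 + gg * MoS P true (rho P Γ) (r + 1) z := rfl
  have h2 : Gr P Γ gg r = fun w => 1 + gg * MoS P true (rho P Γ) r w := rfl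
  rw [h1, MoS_succ, h2, Mo_add P true (fun _ => 1) (fun w => gg * MoS P true (rho P Γ) r w) z,
    Mo_const, Mo_mul P true gg (MoS P true (rho P Γ) r) z]
  ring

/-- `card⁻¹ * ∑ v, (f v + c) = card⁻¹ * ∑ v, f v + c`. -/
lemma B1_sum (P : Par d) (f : V d → ℝ≥0∞) (c : ℝ≥0∞) (z : V d) :
    ∑ v ∈ steps P.i0, ((steps P.i0).card : ℝ≥0∞)⁻¹ * (f (z + (P.L : ℤ) • v) + c) =
      Mo P true f z + c := by
  have h := Mo_add P true f (fun _ => c) z
  rw [Mo_const] at h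
  rw [← h, ← Finset.mul_sum]
  rfl

open Classical in
theorem B1 (P : Par d) (hL : 1 ≤ P.L) (h0 : 0 ≤ P.p) (h1 : P.p ≤ 1) (m0 : ℝ≥0∞)
    (hm : ∀ st, good P st → ∀ v ∈ steps P.i0, m0 ≤ mm P st v) (Γ : St d) (hΓ : good P Γ)
    (a cv gg : ℝ≥0∞) (hcv : 1 ≤ cv)
    (hoff : ∀ st, good P st → st.x ∉ occ Γ.H → ∀ v ∈ steps P.i0,
      m0⁻¹ * (ENNReal.ofReal P.s *
        (a * S1 P Γ st v + 2 * S2 P Γ st v + cv * S5 P Γ st v) +
          cv * S6 P Γ st v) ≤ a * Vp P.p (occ Γ.H \ occ st.H) st.x + gg * rho P Γ st.z)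
    (hG : ∀ r z, gg * ∑ i ∈ Finset.range r, (Mo P true)^[i] (rho P Γ) z ≤ 1)
    (hon : ∀ e ∈ Γ.H, m0⁻¹ *
      (ENNReal.ofReal P.s *
          ∑ y ∈ e.A, ∑ s : Dir d, (2 + a * Vp P.p (occ Γ.H \ e.A) (y + step s)) +
        ENNReal.ofReal P.s * cv *
          ∑ y ∈ e.A, ∑ s : Dir d, (if y + step s ∈ occ Γ.H \ e.A then 1 else 0) +
        2 * cv + (2 + a * Vp P.p (occ Γ.H) Γ.x)) ≤ cv) (r : ℕ) (st : St d) (hst : good P st) :
    (st.x ∉ occ Γ.H → (Op P (kernG P Γ) (epG P Γ))^[r] (fun _ => 1) st ≤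
      Gr P Γ gg r st.z + a * Vp P.p (occ Γ.H \ occ st.H) st.x) ∧
    (st.x ∈ occ Γ.H → (Op P (kernG P Γ) (epG P Γ))^[r] (fun _ => 1) st ≤ cv) := by
  have hG' : ∀ r z, Gr P Γ gg r z ≤ 2 := by
    intro r z
    have h := add_le_add (le_refl (1 : ℝ≥0∞)) (hG r z)
    rw [one_add_one_eq_two] at h
    exact h
  induction r generalizing st with
  | zero =>
    refine ⟨fun _ => ?_, fun _ => hcv⟩
    have h1 : (1 : ℝ≥0∞) ≤ Gr P Γ gg 0 st.z := le_self_add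
    exact h1.trans le_self_add
  | succ r ih =>
    have hF1 : ∀ st', good P st' → st'.x ∉ occ Γ.H →
        (Op P (kernG P Γ) (epG P Γ))^[r] (fun _ => 1) st' ≤
          Gr P Γ gg r st'.z + a * Vp P.p (occ Γ.H \ occ st'.H) st'.x :=
      fun st' h' hx' => (ih st' h').1 hx'
    have hF2 : ∀ st', good P st' → st'.x ∈ occ Γ.H →
        (Op P (kernG P Γ) (epG P Γ))^[r] (fun _ => 1) st' ≤ cv :=
      fun st' h' hx' => (ih st' h').2 hx'
    rw [Function.iterate_succ_apply', Op_eq]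
    refine ⟨fun hx => ?_, fun hx => ?_⟩
    · have h1 : ∀ v ∈ steps P.i0, Opv P (kernG P Γ) (epG P Γ) v
          ((Op P (kernG P Γ) (epG P Γ))^[r] (fun _ => 1)) st ≤ ((steps P.i0).card : ℝ≥0∞)⁻¹ *
            (Gr P Γ gg r (st.z + (P.L : ℤ) • v) +
              (a * Vp P.p (occ Γ.H \ occ st.H) st.x + gg * rho P Γ st.z)) := by
        intro v hv
        refine (step_off P hL h0 h1 m0 hm Γ st hΓ hst hx a cv (Gr P Γ gg r) (hG' r) _ hF1 hF2 v
          hv).trans ?_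
        exact mul_le_mul' le_rfl (add_le_add le_rfl (hoff st hst hx v hv))
      refine (Finset.sum_le_sum h1).trans ?_
      rw [B1_sum P (Gr P Γ gg r), B1_Gr]
      refine le_of_eq ?_
      ring
    · obtain ⟨e, he, hxe⟩ := mem_occ.1 hx
      have hF1' : ∀ st', good P st' → st'.x ∉ occ Γ.H →
          (Op P (kernG P Γ) (epG P Γ))^[r] (fun _ => 1) st' ≤
            2 + a * Vp P.p (occ Γ.H \ occ st'.H) st'.x :=
        fun st' h' hx' => (hF1 st' h' hx').trans (add_le_add (hG' r st'.z) le_rfl)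
      have h1 : ∀ v ∈ steps P.i0, Opv P (kernG P Γ) (epG P Γ) v
          ((Op P (kernG P Γ) (epG P Γ))^[r] (fun _ => 1)) st ≤
            ((steps P.i0).card : ℝ≥0∞)⁻¹ * cv := by
        intro v hv
        refine (step_on P hL h0 h1 m0 hm Γ st hΓ hst e he hxe a cv _ hF1' hF2 v hv).trans ?_
        exact mul_le_mul' le_rfl (hon e he)
      refine (Finset.sum_le_sum h1).trans ?_
      have h2 := Mo_const P true cv st.z
      unfold Mo at h2
      rw [← Finset.mul_sum, h2]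

end CG
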