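import Pool.Agent.H70.CG.Main
import Pool.Agent.H88.GK.Out
import Pool.Agent.H95.LE.EndU
import Pool.Agent.H4.LW.CritW
import Pool.Agent.H29.SH.ChiLow

/-!
PROJECT LE + CG (MP_0d9ad5_pr). The two-sided estimate without hypotheses, in all large dimensions.
-/

namespace CG

open H5DF H95LBD H95LE H4LW MeasureTheory
open scoped ENNReal

variable {d : ℕ}

/-- The critical estimates in all large dimensions. -/
theorem crit_all : ∃ d0 : ℕ, ∀ d : ℕ, d0 ≤ d →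
    0 < SH.pcc d ∧ SH.pcc d < 1 ∧ (∃ A, Rough d (SH.pcc d) A) ∧
    ∃ C δ : ℝ, 0 < C ∧ 0 < δ ∧ ∀ ε : ℝ, 0 < ε → ε < δ → ∀ D : NNReal,
      HasDiffusivity d (SH.pcc d + ε) D → (D : ℝ) ≤ C * ε ^ 2 := by
  obtain ⟨K2, hK2, h2⟩ := H31LE.crit_w2
  obtain ⟨d2, hd2⟩ := h2 (1 / 10000) (by norm_num)
  obtain ⟨K8, C8, hK8, hC8, h8⟩ := H4LW.crit_wm 8 (by norm_num)
  obtain ⟨d8, hd8⟩ := h8 1 one_pos
  refine ⟨max 16 (max d2 d8), fun d hd => ?_⟩
  have h16 : 16 ≤ d := (le_max_left _ _).trans hd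
  have hdd2 : d2 ≤ d := (le_max_left _ _).trans ((le_max_right _ _).trans hd)
  have hdd8 : d8 ≤ d := (le_max_right _ _).trans ((le_max_right _ _).trans hd)
  have hd1 : 1 ≤ d := by omega
  have hdr : (16 : ℝ) ≤ d := by exact_mod_cast h16
  have hd0 : (0 : ℝ) < d := by linarith
  obtain ⟨hpc0, hpc1, hzero, ⟨A, δ, hA, hδ, hth, -⟩, C, δ', hC, hδ', hup⟩ :=
    upper_of_crit (d := d) (by omega) (fun p h0 hp => by
      obtain ⟨-, a2, a3, a4, -⟩ := hd2 d hdd2 p h0 hp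
      exact ⟨a2, a3, a4⟩)
  refine ⟨hpc0, hpc1, ?_, C, δ', hC, hδ', hup⟩
  have hge := SH.pcc_ge (d := d) hd1
  have hT : ∀ p : ℝ, 1 / (4 * (d : ℝ)) ≤ p → p < SH.pcc d → ∀ s : Dir d,
      SH.T3 d p (step s) ≤ ENNReal.ofReal (1 / 16) := by
    intro p hp hp2 s
    have hp0 : 0 ≤ p := le_trans (by positivity) hp
    have hp1 : p ≤ 1 := by linarith
    obtain ⟨-, a2, -⟩ := hd2 d hdd2 p hp0 hp2
    have hs : (step s : V d) ≠ 0 := step_ne_zero s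
    calc SH.T3 d p (step s) ≤ 3 * jggg d p (step s) := T3_le_j p hp0 hp1 _ hs
      _ ≤ 3 * ENNReal.ofReal (1 / 10000) := by gcongr; exact a2 _
      _ = ENNReal.ofReal (3 * (1 / 10000)) := by
          rw [ENNReal.ofReal_mul (by norm_num), ENNReal.ofReal_ofNat]
      _ ≤ _ := ENNReal.ofReal_le_ofReal (by norm_num)
  have hhalf : 1 / (4 * (d : ℝ)) ≤ SH.pcc d / 2 := by
    have : 1 / (4 * (d : ℝ)) = 1 / (2 * (d : ℝ)) / 2 := by
      field_simp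
      norm_num
    rw [this]
    linarith
  set A1 : ℝ := max A (4 / d) with hA1
  refine H88GK.rough h16 hpc0 hpc1 ?_ (K := K8) (A := A1) (le_max_of_le_left hA.le) (by linarith)
    ?_ ?_ ?_ ?_ ?_
  · have : 1 / (2 * (d : ℝ)) * (2 * d) = 1 := by field_simp
    nlinarith
  · intro p hp hp2
    exact (hd8 d hdd8 p (by linarith) hp2).2.2.2.2
  · intro p hp hp2
    exact (hd8 d hdd8 p (by linarith) hp2).1
  · intro p hp hp2
    refine (SH.an_bound hd1 hT p (hhalf.trans hp) hp2).trans (ENNReal.ofReal_le_ofReal ?_)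
    have h3 : 0 < SH.pcc d - p := by linarith
    rw [← div_div]
    gcongr
    exact le_max_right _ _
  · intro p hp hp2
    exact SH.chi_low hd1 (by linarith) hp2 hpc1
  · refine ⟨δ, hδ, fun e he he2 => (hth e he he2).2.trans ?_⟩
    gcongr
    exact le_max_left _ _

/-- The two-sided estimate: `D(p) ≍ (p - p_c) ^ 2` in all large dimensions. -/
theorem two_sided : ∃ d0 : ℕ, ∀ d : ℕ, d0 ≤ d → ∃ pc : ℝ, 0 < pc ∧ pc < 1 ∧
    (∀ p : ℝ, 0 ≤ p → p < pc → theta d p = 0) ∧ (∀ p : ℝ, pc < p → p < 1 → 0 < theta d p) ∧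
    ∃ c C δ : ℝ, 0 < c ∧ 0 < C ∧ 0 < δ ∧ ∀ ε : ℝ, 0 < ε → ε < δ → ∀ D : NNReal,
      HasDiffusivity d (pc + ε) D → c * ε ^ 2 ≤ D ∧ (D : ℝ) ≤ C * ε ^ 2 := by
  obtain ⟨d0, h⟩ := crit_all
  refine ⟨max 16 d0, fun d hd => ?_⟩
  have h16 : 16 ≤ d := (le_max_left _ _).trans hd
  have hd1 : 1 ≤ d := by omega
  obtain ⟨hpc0, hpc1, ⟨A, hA⟩, C, δ, hC, hδ, hup⟩ := h d ((le_max_right _ _).trans hd)
  obtain ⟨c, δ', hc, hδ', hlow⟩ := sharp_lower d (by omega) (SH.pcc d) A hA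
  refine ⟨SH.pcc d, hpc0, hpc1, fun p h0 hp => SH.theta_zero hd1 h0 hp,
    fun p hp hp1 => SH.theta_pos hd1 hp hp1, c, C, min δ δ', hc, hC, lt_min hδ hδ', ?_⟩
  intro ε hε hε2 D hD
  exact ⟨hlow ε hε (hε2.trans_le (min_le_right _ _)) D hD,
    hup ε hε (hε2.trans_le (min_le_left _ _)) D hD⟩

end CG
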