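import Pool.Agent.H5.CG.FlowEx
import Pool.Agent.H5.CG.Len
import Pool.Agent.H5.CF.DualF
import Pool.Agent.H5.CG.Two
import Pool.Agent.H95.LBD.LawA
import Pool.Agent.H70.CG.Reg

/-!
PROJEA CG (MP_0d9ad5_pr, note 2718, section 5), flow part (helper5). The flow bound.
-/

namespace H5CG

open CG H5DF H95LBD MeasureTheory
open scoped ENNReal

variable {d : ℕ}

theorem flow_bound (hd : 9 ≤ d) (pm pM a A Λ c3 : ℝ) (hpm : 0 < pm) (hA : 1 ≤ A) (hΛ : 1 ≤ Λ)
    (hc3 : 0 < c3) : ∃ (c : ℝ) (l0 : ℕ), 0 < c ∧ ∀ (l : ℕ) (P : Par d), l0 ≤ l →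
      Reg d pm pM a A Λ c3 l P → P.s ≤ 1 → ∀ D : NNReal,
      HasDiffusivity d (1 - (1 - P.p) * (1 - P.s)) D →
        c / (P.L : ℝ) ^ 6 ≤ theta d (1 - (1 - P.p) * (1 - P.s)) * D := by
  obtain ⟨C2, l2, hC2, htwo⟩ := two_chain hd pm pM a A Λ c3 hpm hA hΛ hc3
  have hdpos : (0 : ℝ) < d := by
    have : 0 < d := by omega
    exact_mod_cast this
  have hAp : 0 < A := by linarith
  obtain ⟨K8, hK8⟩ : ∃ K8 : ℝ, K8 = 16 * d * C2 * A ^ 2 / c3 := ⟨_, rfl⟩
  have hK8p : 0 < K8 := by rw [hK8]; positivity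
  refine ⟨2 / (d * K8), l2, by positivity, ?_⟩
  intro l P hl2 hR hs1 D hD
  have hL1 : 1 ≤ P.L := hR.kin.L1
  have hLp : (0 : ℝ) < P.L := by exact_mod_cast hL1
  have h0 : 0 ≤ P.p := hR.kin.pm0.le.trans hR.kin.ppm
  have h1 : P.p ≤ 1 := hR.kin.ppM.trans hR.kin.pM1.le
  have hs0 : 0 ≤ P.s := hR.s0
  have hsL : 0 < P.s * (P.L : ℝ) ^ 2 := lt_of_lt_of_le (by positivity) hR.K0
  have hsp : 0 < P.s := by
    rcases hs0.lt_or_eq with h | h
    · exact h
    · rw [← h, zero_mul] at hsL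
      exact absurd hsL (lt_irrefl _)
  have hmp : 0 < c3 * P.s * (P.L : ℝ) ^ 2 := by positivity
  have hm : ∀ st, good P st → ∀ v ∈ steps P.i0, mm P st v ≠ 0 := by
    intro st hst v hv h
    have h2 := hR.mm_ge st hst v hv
    rw [h] at h2
    exact absurd (ENNReal.ofReal_eq_zero.1 (le_antisymm h2 zero_le)) (not_le.2 hmp)
  -- the sum of the two-point function
  have hTT : ∑' u : V d, tau d P.p u ≤ ENNReal.ofReal (A * (P.L : ℝ) ^ 2) := hR.kin.tot
  -- the normalisation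
  set M0 : ℝ≥0∞ := ((steps P.i0).card : ℝ≥0∞)⁻¹ * (ENNReal.ofReal (c3 * P.s * (P.L : ℝ) ^ 2))⁻¹
    with hM0
  have hnrm : ∀ st, good P st → ∀ v ∈ steps P.i0, nrm P st v ≤ M0 := fun st hst v hv =>
    Step_nrm_le (hR.mm_ge st hst v hv)
  have hKLb : ((steps P.i0).card : ℝ≥0∞) * (2 * d) *
      (M0 * ENNReal.ofReal P.s * (∑' u : V d, tau d P.p u) ^ 2) ≤
      ENNReal.ofReal (2 * d * A ^ 2 / c3 * (P.L : ℝ) ^ 2) := by
    have hc : ((steps P.i0).card : ℝ≥0∞) ≠ 0 := by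
      exact_mod_cast (steps_card_pos P.i0).ne'
    have hinv : ((steps P.i0).card : ℝ≥0∞) * ((steps P.i0).card : ℝ≥0∞)⁻¹ = 1 :=
      ENNReal.mul_inv_cancel hc (ENNReal.natCast_ne_top _)
    calc ((steps P.i0).card : ℝ≥0∞) * (2 * d) *
          (M0 * ENNReal.ofReal P.s * (∑' u : V d, tau d P.p u) ^ 2)
        = (((steps P.i0).card : ℝ≥0∞) * ((steps P.i0).card : ℝ≥0∞)⁻¹) * ((2 * d) *
          ((ENNReal.ofReal (c3 * P.s * (P.L : ℝ) ^ 2))⁻¹ * ENNReal.ofReal P.s *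
            (∑' u : V d, tau d P.p u) ^ 2)) := by
          rw [hM0]
          ring
      _ ≤ 1 * (ENNReal.ofReal (2 * d) * (ENNReal.ofReal ((c3 * P.s * (P.L : ℝ) ^ 2)⁻¹) *
            ENNReal.ofReal P.s * (ENNReal.ofReal (A * (P.L : ℝ) ^ 2)) ^ 2)) := by
          rw [hinv, ENNReal.ofReal_inv_of_pos hmp]
          have h2d : (2 * d : ℝ≥0∞) = ENNReal.ofReal (2 * d) := by
            rw [ENNReal.ofReal_mul zero_le_two, ENNReal.ofReal_natCast]
            simp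
          rw [h2d]
          gcongr
      _ = ENNReal.ofReal (2 * d * A ^ 2 / c3 * (P.L : ℝ) ^ 2) := by
          rw [one_mul, ← ENNReal.ofReal_pow (by positivity), ← ENNReal.ofReal_mul (by positivity),
            ← ENNReal.ofReal_mul (by positivity), ← ENNReal.ofReal_mul (by positivity)]
          congr 1
          field_simp
  have hp0 : 0 ≤ 1 - (1 - P.p) * (1 - P.s) := by
    have : (1 - P.p) * (1 - P.s) ≤ 1 := by nlinarith
    linarith
  have hp1 : 1 - (1 - P.p) * (1 - P.s) ≤ 1 := by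
    have : 0 ≤ (1 - P.p) * (1 - P.s) := mul_nonneg (by linarith) (by linarith)
    linarith
  have hpp := isProb_env (d := d) h0 h1 hs0 hs1
  have hmain := H5CF.dual_flow P.i0 (1 - (1 - P.p) * (1 - P.s)) hp0 hp1 D hD (envM d P.p P.s)
    shE measurable_shE (map_shE h0 h1 hs0 hs1) shE_zero shE_shE hi measurable_hi
    (map_hi h0 h1 hs0 hs1) hi_shE (K8 * (P.L : ℝ) ^ 8) (2 * P.L) 2 (by positivity) (by positivity)
    (by
      intro n
      refine flow_exists h0 h1 hs0 hs1 hL1 hm n (K8 * (P.L : ℝ) ^ 8 * (n + 1) ^ 2)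
        (by positivity) (ENNReal.ofReal (C2 * (n + 1) * (P.L : ℝ) ^ 6))
        (n * (((steps P.i0).card : ℝ≥0∞) * (2 * d) *
          (M0 * ENNReal.ofReal P.s * (∑' u : V d, tau d P.p u) ^ 2)))
        (fun Γ hΓ e he => htwo l P hl2 hR hs1 Γ hΓ n e he)
        (len_sum h0 h1 hs0 hs1 hm M0 hnrm n 0) ?_
      calc 8 * (ENNReal.ofReal (C2 * (n + 1) * (P.L : ℝ) ^ 6) *
            (n * (((steps P.i0).card : ℝ≥0∞) * (2 * d) *
            (M0 * ENNReal.ofReal P.s * (∑' u : V d, tau d P.p u) ^ 2))))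
          ≤ ENNReal.ofReal 8 * (ENNReal.ofReal (C2 * (n + 1) * (P.L : ℝ) ^ 6) *
            (ENNReal.ofReal n * ENNReal.ofReal (2 * d * A ^ 2 / c3 * (P.L : ℝ) ^ 2))) := by
            rw [ENNReal.ofReal_natCast]
            have h8 : (8 : ℝ≥0∞) = ENNReal.ofReal 8 := by simp
            rw [h8]
            gcongr
        _ = ENNReal.ofReal (8 * (C2 * (n + 1) * (P.L : ℝ) ^ 6 *
              (n * (2 * d * A ^ 2 / c3 * (P.L : ℝ) ^ 2)))) := by
            rw [← ENNReal.ofReal_mul (by positivity), ← ENNReal.ofReal_mul (by positivity),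
              ← ENNReal.ofReal_mul (by positivity)]
        _ ≤ ENNReal.ofReal (K8 * (P.L : ℝ) ^ 8 * (n + 1) ^ 2) := by
            refine ENNReal.ofReal_le_ofReal ?_
            have hn0 : (0 : ℝ) ≤ n := Nat.cast_nonneg n
            have e1 : 8 * (C2 * ((n : ℝ) + 1) * (P.L : ℝ) ^ 6 *
                (n * (2 * d * A ^ 2 / c3 * (P.L : ℝ) ^ 2))) =
                K8 * (P.L : ℝ) ^ 8 * ((n + 1) * n) := by
              rw [hK8]
              ring
            rw [e1]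
            refine mul_le_mul_of_nonneg_left ?_ (by positivity)
            nlinarith)
  -- conclusion
  have hfin : 2 / (d * K8) / (P.L : ℝ) ^ 6 =
      ((2 * (P.L : ℝ)) ^ 2 / (K8 * (P.L : ℝ) ^ 8)) / (2 * d) := by
    field_simp
  rw [hfin, div_le_iff₀ (by positivity)]
  refine hmain.trans (le_of_eq ?_)
  ring

end H5CG

/-!
PROJECT CG (MP_0d9ad5_pr, note 2748), owner helper5 (measure part). Interface for the final assembly: the flow
bound in the regime `Reg`.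
-/

namespace CG

open H5DF H95LBD MeasureTheory
open scoped ENNReal

variable {d : ℕ}

theorem flow_bound (hd : 9 ≤ d) (pm pM a A Λ c3 : ℝ) (hpm : 0 < pm) (hA : 1 ≤ A) (hΛ : 1 ≤ Λ)
    (hc3 : 0 < c3) : ∃ (c : ℝ) (l0 : ℕ), 0 < c ∧ ∀ (l : ℕ) (P : Par d), l0 ≤ l →
      Reg d pm pM a A Λ c3 l P → P.s ≤ 1 → ∀ D : NNReal,
      HasDiffusivity d (1 - (1 - P.p) * (1 - P.s)) D →
        c / (P.L : ℝ) ^ 6 ≤ theta d (1 - (1 - P.p) * (1 - P.s)) * D :=
  H5CG.flow_bound hd pm pM a A Λ c3 hpm hA hΛ hc3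

end CG
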