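import Pool.Agent.H5.CG.Inp

/-!
JOB CG-KinR (MP_0d9ad5_pr, note 2748). From the interface `Rough` to the inputs `KIn` at the scale `L`,
`p = pc - 1/L^2`. PROOF. `L0` with `1/L0^2 ≤ pc/2` and `L0` of (K5). `tot`: (K1), `pc - p = 1/L^2`. `mom`:
`(1 + n/L)^16 ≤ 2^15 (1 + n^16/L^16)`, (K1), (K2): `≤ 2^15 (A L^2 + A L^18 / L^16)`. The rest is (K3) - (K5) with
`A' = 2^16 A ≥ A`.
-/

namespace CG

open H5DF H95LBD MeasureTheory
open scoped ENNReal

variable {d : ℕ}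

lemma KinR_gro {L : ℕ} (hL : 1 ≤ L) (x : V d) (t : ℝ≥0∞) :
    gro L x * t ≤ ENNReal.ofReal (2 ^ 15) * t +
      ENNReal.ofReal (2 ^ 15 / (L : ℝ) ^ 16) * (ENNReal.ofReal ((nm x : ℝ) ^ 16) * t) := by
  have hL0 : (0 : ℝ) < L := by exact_mod_cast hL
  have h1 : (1 + (nm x : ℝ) / L) ^ 16 ≤
      2 ^ 15 + 2 ^ 15 / (L : ℝ) ^ 16 * (nm x : ℝ) ^ 16 := by
    have h := add_pow_le (zero_le_one (α := ℝ)) (div_nonneg (Nat.cast_nonneg (nm x)) hL0.le) 16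
    calc (1 + (nm x : ℝ) / L) ^ 16 ≤ 2 ^ (16 - 1) * (1 ^ 16 + ((nm x : ℝ) / L) ^ 16) := h
      _ = 2 ^ 15 + 2 ^ 15 / (L : ℝ) ^ 16 * (nm x : ℝ) ^ 16 := by
        rw [div_pow]
        ring
  have h2 : gro L x ≤ ENNReal.ofReal (2 ^ 15) +
      ENNReal.ofReal (2 ^ 15 / (L : ℝ) ^ 16) * ENNReal.ofReal ((nm x : ℝ) ^ 16) := by
    rw [← ENNReal.ofReal_mul (by positivity), ← ENNReal.ofReal_add (by positivity) (by positivity)]
    exact ENNReal.ofReal_le_ofReal h1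
  calc gro L x * t ≤ (ENNReal.ofReal (2 ^ 15) +
        ENNReal.ofReal (2 ^ 15 / (L : ℝ) ^ 16) * ENNReal.ofReal ((nm x : ℝ) ^ 16)) * t :=
        mul_le_mul_left h2 t
    _ = _ := by rw [add_mul, mul_assoc]

theorem Rough.kin {pc A : ℝ} (R : Rough d pc A) : ∃ (a A' : ℝ) (L0 : ℕ), 0 < a ∧ 1 ≤ A' ∧ 1 ≤ L0 ∧
    ∀ L : ℕ, L0 ≤ L → KIn d (pc - 1 / (L : ℝ) ^ 2) L (pc / 2) pc a A' := by
  obtain ⟨a, L0', ha, hL0', hlow⟩ := R.low
  have hA0 : 0 ≤ A := zero_le_one.trans R.hA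
  have hAA : A ≤ 2 ^ 16 * A := by linarith
  refine ⟨a, 2 ^ 16 * A, max L0' (⌈2 / pc⌉₊ + 1), ha, R.hA.trans hAA,
    hL0'.trans (le_max_left _ _), fun L hL => ?_⟩
  have hLL : L0' ≤ L := (le_max_left _ _).trans hL
  have hL2 : ⌈2 / pc⌉₊ + 1 ≤ L := (le_max_right _ _).trans hL
  have hL1 : 1 ≤ L := hL0'.trans hLL
  have hLr : (1 : ℝ) ≤ L := by exact_mod_cast hL1
  have hLp : (0 : ℝ) < L := by linarith
  have hinv : 1 / (L : ℝ) ^ 2 ≤ pc / 2 := by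
    have h1 : 2 / pc ≤ (L : ℝ) := by
      have h2 : (⌈2 / pc⌉₊ : ℝ) ≤ L := by
        exact_mod_cast (Nat.le_succ _).trans hL2
      exact (Nat.le_ceil _).trans h2
    have h3 : 2 / pc ≤ (L : ℝ) ^ 2 := by nlinarith
    rw [div_le_iff₀ R.pc0] at h3
    rw [div_le_iff₀ (by positivity)]
    linarith
  have hpos : 0 < 1 / (L : ℝ) ^ 2 := by positivity
  have hp1 : pc / 2 ≤ pc - 1 / (L : ℝ) ^ 2 := by linarith
  have hp2 : pc - 1 / (L : ℝ) ^ 2 < pc := by linarith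
  have hsub : pc - (pc - 1 / (L : ℝ) ^ 2) = 1 / (L : ℝ) ^ 2 := by ring
  have htot : ∑' x : V d, tau d (pc - 1 / (L : ℝ) ^ 2) x ≤ ENNReal.ofReal (A * (L : ℝ) ^ 2) := by
    have h := R.chi _ hp1 hp2
    rw [hsub, div_div_eq_mul_div, div_one] at h
    exact h
  have hmom : ∑' x : V d, ENNReal.ofReal ((nm x : ℝ) ^ 16) * tau d (pc - 1 / (L : ℝ) ^ 2) x ≤
      ENNReal.ofReal (A * (L : ℝ) ^ 18) := by
    have h := R.mom _ hp1 hp2
    rw [hsub] at h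
    have h2 : A / (1 / (L : ℝ) ^ 2) ^ 9 = A * (L : ℝ) ^ 18 := by
      field_simp
    rwa [h2] at h
  refine
    { L1 := hL1
      pm0 := by
        have := R.pc0
        linarith
      ppm := hp1
      ppM := hp2.le
      pM1 := R.pc1
      a0 := ha
      hA := R.hA.trans hAA
      tot := htot.trans (ENNReal.ofReal_le_ofReal
        (mul_le_mul_of_nonneg_right hAA (by positivity)))
      mom := ?_
      far := fun z => (R.far _ hp1 hp2 z).trans (ENNReal.ofReal_le_ofReal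
        (div_le_div_of_nonneg_right hAA (by positivity)))
      tri := (R.tri _ hp1 hp2).trans (ENNReal.ofReal_le_ofReal hAA)
      ball2 := fun n hn => (R.ball2 _ hp1 hp2 n hn).trans (ENNReal.ofReal_le_ofReal
        (mul_le_mul_of_nonneg_right hAA (by positivity)))
      ball4 := fun n hn => (R.ball4 _ hp1 hp2 n hn).trans (ENNReal.ofReal_le_ofReal
        (mul_le_mul_of_nonneg_right hAA (by positivity)))
      low := fun z hz => hlow L hLL z hz }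
  calc ∑' x : V d, gro L x * tau d (pc - 1 / (L : ℝ) ^ 2) x
      ≤ ∑' x : V d, (ENNReal.ofReal (2 ^ 15) * tau d (pc - 1 / (L : ℝ) ^ 2) x +
          ENNReal.ofReal (2 ^ 15 / (L : ℝ) ^ 16) *
            (ENNReal.ofReal ((nm x : ℝ) ^ 16) * tau d (pc - 1 / (L : ℝ) ^ 2) x)) :=
        ENNReal.tsum_le_tsum fun x => KinR_gro hL1 x _
    _ = ENNReal.ofReal (2 ^ 15) * ∑' x : V d, tau d (pc - 1 / (L : ℝ) ^ 2) x +
          ENNReal.ofReal (2 ^ 15 / (L : ℝ) ^ 16) *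
            ∑' x : V d, (ENNReal.ofReal ((nm x : ℝ) ^ 16) * tau d (pc - 1 / (L : ℝ) ^ 2) x) := by
        rw [ENNReal.tsum_add, ENNReal.tsum_mul_left, ENNReal.tsum_mul_left]
    _ ≤ ENNReal.ofReal (2 ^ 15) * ENNReal.ofReal (A * (L : ℝ) ^ 2) +
          ENNReal.ofReal (2 ^ 15 / (L : ℝ) ^ 16) * ENNReal.ofReal (A * (L : ℝ) ^ 18) :=
        add_le_add (mul_le_mul_right htot _) (mul_le_mul_right hmom _)
    _ = ENNReal.ofReal (2 ^ 16 * A * (L : ℝ) ^ 2) := by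
        rw [← ENNReal.ofReal_mul (by positivity), ← ENNReal.ofReal_mul (by positivity),
          ← ENNReal.ofReal_add (by positivity) (by positivity)]
        congr 1
        field_simp
        ring

end CG
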