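import Pool.Agent.H70.CG.StepDef
import Pool.Agent.H12.CG.LaMain

/-!
PROJECT CG (MP_0d9ad5_pr, note 2748), Lemma A (interface; the proof is in H12/CG).
-/

namespace CG

open H5DF H95LBD MeasureTheory
open scoped ENNReal

variable {d : ℕ}

theorem lemA (hd : 9 ≤ d) (pm pM a A : ℝ) (hpm : 0 < pm) (hpM : pM < 1) (ha : 0 < a)
    (hA : 1 ≤ A) : ∃ (v0 Λ c3 : ℝ) (R1 : ℕ), 0 < v0 ∧ 1 ≤ Λ ∧ 0 < c3 ∧
      ∀ β : ℝ, 0 < β → ∃ l0 : ℕ,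
      ∀ (P : Par d) (l : ℕ), l0 ≤ l → P.L = l ^ 4 → P.R1 = R1 →
      P.v0 = ENNReal.ofReal v0 →
      P.b1 = ENNReal.ofReal (Λ * (P.L : ℝ) ^ 4) → ENNReal.ofReal (β * (P.L : ℝ) ^ 4) ≤ P.b3 →
      ENNReal.ofReal (β * (P.L : ℝ) ^ 2) ≤ P.b4 → KIn d P.p P.L pm pM a A →
      ∀ st : St d, good P st → ∀ v ∈ steps P.i0, ENNReal.ofReal (c3 * (P.L : ℝ) ^ 2) ≤
        ∑' B : Finset (V d), cl P.p (occ st.H) st.x B * cnt P st v B := by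
  exact La_main pm pM a A hpm hpM ha hA (by omega)

end CG
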