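import Pool.Agent.H70.CG.KinR
import Pool.Agent.H70.CG.FinI
import Pool.Agent.H70.CG.LemA

/-!
PROJECT CG (MP_0d9ad5_pr, notes 2718, 2748). Final assembly: the sharp lower bound from the rough inputs.
-/

namespace CG

open H5DF H95LBD MeasureTheory
open scoped ENNReal

/-- the choice of the scale -/
lemma Main_scale (K ε : ℝ) (m : ℕ) (hε : 0 < ε) (hm : 2 ≤ m)
    (hsm : ε * (m : ℝ) ^ 8 < K) : ∃ l : ℕ, m ≤ l ∧ K ≤ ε * (l : ℝ) ^ 8 ∧
      ε * (l : ℝ) ^ 8 ≤ 2 ^ 8 * K := by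
  classical
  have hex : ∃ l : ℕ, K ≤ ε * (l : ℝ) ^ 8 := by
    obtain ⟨n, hn⟩ := exists_nat_gt (max (K / ε) 1)
    refine ⟨n, ?_⟩
    have h1 : K / ε < n := lt_of_le_of_lt (le_max_left _ _) hn
    have h2 : (1 : ℝ) < n := lt_of_le_of_lt (le_max_right _ _) hn
    have h3 : (n : ℝ) ≤ (n : ℝ) ^ 8 := le_self_pow₀ h2.le (by norm_num)
    rw [div_lt_iff₀ hε] at h1
    have h4 : ε * (n : ℝ) ≤ ε * (n : ℝ) ^ 8 := mul_le_mul_of_nonneg_left h3 hε.le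
    linarith
  have hspec := Nat.find_spec hex
  have hmin : ∀ k : ℕ, k < Nat.find hex → ε * (k : ℝ) ^ 8 < K := fun k hk =>
    not_le.1 (Nat.find_min hex hk)
  have hml : m ≤ Nat.find hex := by
    by_contra hlt
    push Not at hlt
    have h1 : ((Nat.find hex : ℕ) : ℝ) ^ 8 ≤ (m : ℝ) ^ 8 := by
      apply pow_le_pow_left₀ (by positivity)
      exact_mod_cast hlt.le
    have h2 := mul_le_mul_of_nonneg_left h1 hε.le
    linarith
  refine ⟨Nat.find hex, hml, hspec, ?_⟩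
  have hl1 : Nat.find hex - 1 < Nat.find hex := by omega
  have h1 := hmin _ hl1
  have h2 : ((Nat.find hex : ℕ) : ℝ) ≤ 2 * ((Nat.find hex - 1 : ℕ) : ℝ) := by
    have : Nat.find hex ≤ 2 * (Nat.find hex - 1) := by omega
    exact_mod_cast this
  calc ε * ((Nat.find hex : ℕ) : ℝ) ^ 8 ≤ ε * (2 * ((Nat.find hex - 1 : ℕ) : ℝ)) ^ 8 := by
        apply mul_le_mul_of_nonneg_left _ hε.le
        exact pow_le_pow_left₀ (by positivity) h2 8
    _ = 2 ^ 8 * (ε * ((Nat.find hex - 1 : ℕ) : ℝ) ^ 8) := by ring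
    _ ≤ 2 ^ 8 * K := by
        apply mul_le_mul_of_nonneg_left h1.le (by positivity)

theorem sharp_lower (d : ℕ) (hd : 9 ≤ d) (pc A : ℝ) (R : Rough d pc A) :
    ∃ c δ : ℝ, 0 < c ∧ 0 < δ ∧ ∀ ε : ℝ, 0 < ε → ε < δ → ∀ D : NNReal,
      HasDiffusivity d (pc + ε) D → c * ε ^ 2 ≤ D := by
  obtain ⟨a, A', L0, ha, hA', hL0, hkin⟩ := R.kin
  have h0 := R.pc0
  have h1 := R.pc1
  have hA0 : 0 < A := by linarith [R.hA]
  obtain ⟨δ0, hδ0, hth0⟩ := R.theta_le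
  obtain ⟨v0, Λ, c3, R1, hv0, hΛ, hc3, hlem⟩ :=
    lemA hd (pc / 2) pc a A' (by linarith) h1 ha hA'
  have hβ : 0 < c3 / 24 := by positivity
  obtain ⟨l1, hl1⟩ := hlem (c3 / 24) hβ
  obtain ⟨c, l2, hc, hfl⟩ := flow_bound (d := d) hd (pc / 2) pc a A' Λ c3 (by linarith) hA' hΛ hc3
  obtain ⟨m, hm1, hm2, hm3, hm4⟩ : ∃ m : ℕ, l1 ≤ m ∧ l2 ≤ m ∧ L0 ≤ m ∧ 2 ≤ m :=
    ⟨l1 + l2 + L0 + 2, by omega, by omega, by omega, by omega⟩
  have hK : 0 < 16 / c3 := by positivity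
  have hm0 : (0 : ℝ) < (m : ℝ) ^ 8 := by
    have : (0 : ℝ) < m := by
      have : 0 < m := by omega
      exact_mod_cast this
    positivity
  refine ⟨c / (A * (2 ^ 8 * (16 / c3)) ^ 3), min (min δ0 (1 - pc)) (16 / c3 / (m : ℝ) ^ 8),
    by positivity, ?_, ?_⟩
  · refine lt_min (lt_min hδ0 (by linarith)) (by positivity)
  intro ε hε hεδ D hD
  have he1 : ε < δ0 := hεδ.trans_le ((min_le_left _ _).trans (min_le_left _ _))
  have he2 : ε < 1 - pc := hεδ.trans_le ((min_le_left _ _).trans (min_le_right _ _))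
  have he3 : ε < 16 / c3 / (m : ℝ) ^ 8 := hεδ.trans_le (min_le_right _ _)
  rw [lt_div_iff₀ hm0] at he3
  obtain ⟨l, hml, hKl, hKu⟩ := Main_scale (16 / c3) ε m hε hm4 he3
  -- the side
  obtain ⟨L, hL⟩ : ∃ L : ℕ, L = l ^ 4 := ⟨_, rfl⟩
  have hlL : l ≤ L := by
    rw [hL]
    exact Nat.le_self_pow (by norm_num) l
  have hL1 : 1 ≤ L := by omega
  have hLr : (1 : ℝ) ≤ L := by exact_mod_cast hL1
  have hL0' : (0 : ℝ) < L := by linarith
  have hLl : (L : ℝ) ^ 2 = (l : ℝ) ^ 8 := by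
    rw [hL]
    push_cast
    ring
  have hk := hkin L (by omega)
  have hq0 : 0 < 1 / (L : ℝ) ^ 2 := by positivity
  generalize hp1 : pc - 1 / (L : ℝ) ^ 2 = p1 at hk
  have hp1lt : p1 < pc := by linarith
  have hden : 0 < 1 - p1 := by linarith
  obtain ⟨s, hs⟩ : ∃ s : ℝ, s = (ε + 1 / (L : ℝ) ^ 2) / (1 - p1) := ⟨_, rfl⟩
  have hp1m := hk.ppm
  have hsε : ε ≤ s := by
    rw [hs, le_div_iff₀ hden]
    nlinarith
  have hs1 : s ≤ 1 := by
    rw [hs, div_le_one hden]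
    linarith
  have hs0 : 0 ≤ s := hε.le.trans hsε
  have hcomp : 1 - (1 - p1) * (1 - s) = pc + ε := by
    have h2 : (1 - p1) * s = ε + 1 / (L : ℝ) ^ 2 := by
      rw [hs, mul_div_cancel₀ _ hden.ne']
    have h3 : 1 - (1 - p1) * (1 - s) = p1 + (1 - p1) * s := by ring
    rw [h3, h2]
    linarith
  obtain ⟨P, hP⟩ : ∃ P : Par d, P = ⟨⟨0, by omega⟩, L, R1,
      ENNReal.ofReal v0, ENNReal.ofReal (Λ * (L : ℝ) ^ 4),
      ENNReal.ofReal (c3 / 24 * (L : ℝ) ^ 4),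
      ENNReal.ofReal (c3 / 24 * (L : ℝ) ^ 2), p1, s⟩ := ⟨_, rfl⟩
  have hPL : P.L = L := by rw [hP]
  have hPs : P.s = s := by rw [hP]
  have hPp : P.p = p1 := by rw [hP]
  have hReg : Reg d (pc / 2) pc a A' Λ c3 l P := by
    refine ⟨hd, hΛ, hc3, by omega, by rw [hPL, hL], by rw [hP], by rw [hP], by rw [hP], ?_,
      by rw [hPs]; exact hs0, ?_, ?_⟩
    · rw [hPp, hPL]
      exact hk
    · rw [hPs, hPL, hLl]
      refine hKl.trans ?_
      exact mul_le_mul_of_nonneg_right hsε (by positivity)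
    · intro st hst v hv
      have h2 := hl1 P l (by omega) (by rw [hPL, hL]) (by rw [hP]) (by rw [hP])
        (by rw [hP]) (by rw [hP]) (by rw [hP]) (by rw [hPp, hPL]; exact hk) st hst v hv
      unfold mm
      rw [hPs]
      have h3 : ENNReal.ofReal (c3 * s * (P.L : ℝ) ^ 2) =
          ENNReal.ofReal s * ENNReal.ofReal (c3 * (P.L : ℝ) ^ 2) := by
        rw [← ENNReal.ofReal_mul hs0]
        congr 1
        ring
      rw [h3]
      gcongr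
  have hmain := hfl l P (by omega) hReg (by rw [hPs]; exact hs1) D (by
    rw [hPp, hPs, hcomp]
    exact hD)
  rw [hPp, hPs, hcomp, hPL] at hmain
  have hth := hth0 ε hε he1
  have hD0 : (0 : ℝ) ≤ D := D.2
  have h6 : c / (L : ℝ) ^ 6 ≤ A * ε * D := hmain.trans (mul_le_mul_of_nonneg_right hth hD0)
  have h7 : (ε * (L : ℝ) ^ 2) ^ 3 ≤ (2 ^ 8 * (16 / c3)) ^ 3 := by
    apply pow_le_pow_left₀ (by positivity)
    rw [hLl]
    exact hKu
  have h8 : ε ^ 3 * (L : ℝ) ^ 6 ≤ (2 ^ 8 * (16 / c3)) ^ 3 := by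
    calc ε ^ 3 * (L : ℝ) ^ 6 = (ε * (L : ℝ) ^ 2) ^ 3 := by ring
      _ ≤ _ := h7
  generalize hQ : (2 ^ 8 * (16 / c3)) ^ 3 = Q at h8 ⊢
  have hQ0 : 0 < Q := by
    rw [← hQ]
    positivity
  rw [div_mul_eq_mul_div, div_le_iff₀ (by positivity)]
  rw [div_le_iff₀ (by positivity)] at h6
  have h9 : c * ε ^ 2 ≤ A * ε * D * (L : ℝ) ^ 6 * ε ^ 2 :=
    mul_le_mul_of_nonneg_right h6 (by positivity)
  calc c * ε ^ 2 ≤ A * ε * D * (L : ℝ) ^ 6 * ε ^ 2 := h9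
    _ = A * D * (ε ^ 3 * (L : ℝ) ^ 6) := by ring
    _ ≤ A * D * Q := mul_le_mul_of_nonneg_left h8 (by positivity)
    _ = D * (A * Q) := by ring

end CG
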